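import Mathlib

set_option autoImplicit false

namespace Pool.Agent.X277.Mon

open Subgroup

/-- A retract of a finitely generated free group is finitely presented. -/
theorem fp_of_retract {n : ℕ} {H : Type*} [Group H] (π : FreeGroup (Fin n) →* H)
    (s : H →* FreeGroup (Fin n)) (hs : ∀ h, π (s h) = h) : Group.IsFinitelyPresented H := by
  refine ⟨n, π, fun h => ⟨s h, hs h⟩,
    Set.range (fun i : Fin n => (FreeGroup.of i)⁻¹ * s (π (FreeGroup.of i))),
    Set.finite_range _, ?_⟩
  set K := normalClosure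
    (Set.range (fun i : Fin n => (FreeGroup.of i)⁻¹ * s (π (FreeGroup.of i)))) with hK
  apply le_antisymm
  · apply normalClosure_le_normal
    rintro _ ⟨i, rfl⟩
    change π _ = 1
    rw [map_mul, map_inv, hs, inv_mul_cancel]
  · intro w hw
    have h1 : QuotientGroup.mk' K = ((QuotientGroup.mk' K).comp s).comp π := by
      ext i
      have h2 : (FreeGroup.of i)⁻¹ * s (π (FreeGroup.of i)) ∈ K := subset_normalClosure ⟨i, rfl⟩
      exact QuotientGroup.eq.2 h2
    have h3 : QuotientGroup.mk' K w = 1 := by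
      rw [h1, MonoidHom.comp_apply, (MonoidHom.mem_ker).1 hw, map_one]
    exact (QuotientGroup.eq_one_iff w).1 h3

/-- A finitely generated free group is finitely presented. -/
theorem fp_of_free {H : Type*} [Group H] [IsFreeGroup H] [hfg : Group.FG H] :
    Group.IsFinitelyPresented H := by
  obtain ⟨S, hS⟩ := hfg.out
  obtain ⟨n, f, hf⟩ : ∃ (n : ℕ) (f : Fin n → H), closure (Set.range f) = ⊤ := by
    refine ⟨S.card, fun i => (S.equivFin.symm i : H), ?_⟩
    have : Set.range (fun i => (S.equivFin.symm i : H)) = (S : Set H) := by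
      ext x
      constructor
      · rintro ⟨i, rfl⟩
        exact (S.equivFin.symm i).2
      · intro hx
        exact ⟨S.equivFin ⟨x, hx⟩, by simp⟩
    rw [this, hS]
  have hsurj : Function.Surjective (FreeGroup.lift f) := by
    rw [← MonoidHom.range_eq_top, FreeGroup.range_lift_eq_closure, hf]
  choose g hg using hsurj
  refine fp_of_retract (FreeGroup.lift f)
    (IsFreeGroup.lift (fun x => g (IsFreeGroup.of x))) ?_
  intro h
  have h1 : (FreeGroup.lift f).comp (IsFreeGroup.lift (fun x => g (IsFreeGroup.of x))) =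
      MonoidHom.id H := by
    apply IsFreeGroup.ext_hom
    intro x
    rw [MonoidHom.comp_apply, IsFreeGroup.lift_of, hg]
    rfl
  exact DFunLike.congr_fun h1 h

/-- Reidemeister-Schreier: subgroups of finite index in finitely presented groups are finitely
presented. -/
theorem fp_of_finiteIndex {G : Type*} [Group G] [hG : Group.IsFinitelyPresented G]
    (H : Subgroup G) [H.FiniteIndex] : Group.IsFinitelyPresented H := by
  obtain ⟨n, φ, hφ, S, hSf, hS⟩ := hG.out
  set H' : Subgroup (FreeGroup (Fin n)) := H.comap φ with hH'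
  have : H'.FiniteIndex := ⟨by
    rw [hH', index_comap_of_surjective _ hφ]; exact FiniteIndex.index_ne_zero⟩
  have hfg' : Group.FG H' := fg_of_index_ne_zero H'
  have : Group.IsFinitelyPresented H' := fp_of_free
  let ψ : H' →* H := φ.subgroupComap H
  have hψ : Function.Surjective ψ := φ.subgroupComap_surjective_of_surjective H hφ
  have hker : ∀ x ∈ φ.ker, x ∈ H' := by
    intro x hx
    change φ x ∈ H
    rw [(MonoidHom.mem_ker).1 hx]
    exact one_mem _
  have hSk : ∀ s ∈ S, s ∈ φ.ker := by
    intro s hs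
    rw [← hS]
    exact subset_normalClosure hs
  let T : Set H' := {y : H' | ∃ s ∈ S, ∃ x : FreeGroup (Fin n) ⧸ H', (y : FreeGroup (Fin n)) =
    (x.out)⁻¹ * s * x.out}
  have hTf : T.Finite := by
    have : Finite (FreeGroup (Fin n) ⧸ H') := inferInstance
    have h1 : ((fun p : FreeGroup (Fin n) × (FreeGroup (Fin n) ⧸ H') =>
        (p.2.out)⁻¹ * p.1 * p.2.out) '' (S ×ˢ Set.univ)).Finite :=
      (hSf.prod Set.finite_univ).image _
    apply Set.Finite.of_finite_image (f := (Subtype.val : H' → FreeGroup (Fin n))) _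
      Subtype.val_injective.injOn
    refine h1.subset ?_
    rintro _ ⟨y, ⟨s, hs, x, hy⟩, rfl⟩
    exact ⟨(s, x), ⟨hs, trivial⟩, hy.symm⟩
  refine Group.IsFinitelyPresented.of_surjective ψ hψ ⟨T, hTf, ?_⟩
  apply le_antisymm
  · apply normalClosure_le_normal
    rintro y ⟨s, hs, x, hy⟩
    change ψ y = 1
    apply Subtype.ext
    change φ (y : FreeGroup (Fin n)) = 1
    rw [hy, map_mul, map_mul, (MonoidHom.mem_ker).1 (hSk s hs), mul_one, map_inv,
      inv_mul_cancel]
  · intro y hy
    have hy1 : (y : FreeGroup (Fin n)) ∈ normalClosure S := by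
      rw [hS]
      change φ (y : FreeGroup (Fin n)) = 1
      exact congrArg Subtype.val ((MonoidHom.mem_ker).1 hy)
    have h2 : normalClosure S ≤ (normalClosure T).map H'.subtype := by
      change closure (Group.conjugatesOfSet S) ≤ _
      rw [closure_le]
      intro z hz
      obtain ⟨s, hs, hsz⟩ := Group.mem_conjugatesOfSet_iff.1 hz
      obtain ⟨g, hg⟩ := isConj_iff.1 hsz
      set x : FreeGroup (Fin n) ⧸ H' := QuotientGroup.mk g⁻¹ with hx
      have hxo : (QuotientGroup.mk x.out : FreeGroup (Fin n) ⧸ H') = QuotientGroup.mk g⁻¹ := by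
        rw [QuotientGroup.out_eq']
      have hh : x.out⁻¹ * g⁻¹ ∈ H' := QuotientGroup.eq.1 hxo
      have ht : (x.out)⁻¹ * s * x.out ∈ H' := by
        apply hker
        rw [MonoidHom.mem_ker, map_mul, map_mul, (MonoidHom.mem_ker).1 (hSk s hs), mul_one,
          map_inv, inv_mul_cancel]
      have h3 : (⟨_, ht⟩ : H') ∈ normalClosure T :=
        subset_normalClosure ⟨s, hs, x, rfl⟩
      have h4 := (normalClosure_normal (s := T)).conj_mem _ h3 (⟨_, hh⟩ : H')⁻¹
      refine ⟨_, h4, ?_⟩
      change (x.out⁻¹ * g⁻¹)⁻¹ * ((x.out)⁻¹ * s * x.out) * (x.out⁻¹ * g⁻¹)⁻¹⁻¹ = z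
      rw [← hg]
      group
    obtain ⟨y', hy', h5⟩ := h2 hy1
    have h6 : y' = y := Subtype.ext h5
    rw [← h6]
    exact hy'

end Pool.Agent.X277.Mon
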