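import Mathlib
import Pool.Agent.X277.Mon.FP

set_option autoImplicit false

namespace Pool.Agent.X277.Mon

open Subgroup

variable {G : Type*} [Group G]

/-- A group with finitely many conjugacy classes has finitely many normal subgroups. -/
theorem finite_normal [hc : Finite (ConjClasses G)] : Finite {N : Subgroup G // N.Normal} := by
  have hinj : Function.Injective (fun N : {N : Subgroup G // N.Normal} =>
      ConjClasses.mk '' (N.1 : Set G)) := by
    rintro ⟨N, hN⟩ ⟨M, hM⟩ h
    apply Subtype.ext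
    have key : ∀ (A B : Subgroup G), B.Normal → ConjClasses.mk '' (A : Set G) =
        ConjClasses.mk '' (B : Set G) → A ≤ B := by
      intro A B hB hAB x hx
      have h1 : ConjClasses.mk x ∈ ConjClasses.mk '' (B : Set G) := hAB ▸ ⟨x, hx, rfl⟩
      obtain ⟨y, hy, hyx⟩ := h1
      obtain ⟨c, hc⟩ := isConj_iff.1 (ConjClasses.mk_eq_mk_iff_isConj.1 hyx)
      rw [← hc]
      exact hB.conj_mem y hy c
    exact le_antisymm (key N M hM h) (key M N hN h.symm)
  exact Finite.of_injective _ hinj

/-- In a group with finitely many conjugacy classes each normal subgroup is the normal closure of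
a finite set. -/
theorem fng_of_finite [hc : Finite (ConjClasses G)] (N : Subgroup G) [hN : N.Normal] :
    N.IsFinitelyNormallyGenerated := by
  classical
  choose rep hrep using (ConjClasses.exists_rep : ∀ a : ConjClasses G, _)
  refine ⟨(Set.range rep) ∩ N, (Set.finite_range rep).inter_of_left _, ?_⟩
  apply le_antisymm
  · exact normalClosure_le_normal Set.inter_subset_right
  · intro x hx
    have h1 : IsConj (rep (ConjClasses.mk x)) x :=
      ConjClasses.mk_eq_mk_iff_isConj.1 (hrep _)
    obtain ⟨c, hc⟩ := isConj_iff.1 h1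
    have h2 : rep (ConjClasses.mk x) ∈ N := by
      have : rep (ConjClasses.mk x) = c⁻¹ * x * c⁻¹⁻¹ := by
        conv_rhs => rw [← hc]
        group
      rw [this]
      exact hN.conj_mem x hx _
    have h3 : rep (ConjClasses.mk x) ∈ normalClosure ((Set.range rep) ∩ (N : Set G)) :=
      subset_normalClosure ⟨Set.mem_range_self _, h2⟩
    rw [← hc]
    exact normalClosure_normal.conj_mem _ h3 c

theorem finite_cc_quotient [hc : Finite (ConjClasses G)] (N : Subgroup G) [N.Normal] :
    Finite (ConjClasses (G ⧸ N)) :=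
  Finite.of_surjective _ (ConjClasses.map_surjective (QuotientGroup.mk'_surjective N))

/-- Subgroups of finite index in a group with finitely many conjugacy classes have finitely many
conjugacy classes. -/
theorem finite_cc_subgroup [hc : Finite (ConjClasses G)] (R : Subgroup G) [hR : R.FiniteIndex] :
    Finite (ConjClasses R) := by
  classical
  choose rep hrep using (ConjClasses.exists_rep : ∀ a : ConjClasses G, _)
  let f : ConjClasses G × (G ⧸ R) → ConjClasses R := fun p =>
    if h : (p.2.out)⁻¹ * rep p.1 * p.2.out ∈ R then ConjClasses.mk ⟨_, h⟩ else 1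
  have hf : Function.Surjective f := by
    intro c
    obtain ⟨⟨x, hx⟩, rfl⟩ := ConjClasses.exists_rep c
    have h1 : IsConj (rep (ConjClasses.mk x)) x :=
      ConjClasses.mk_eq_mk_iff_isConj.1 (hrep _)
    obtain ⟨g, hg⟩ := isConj_iff.1 h1
    set r := rep (ConjClasses.mk x) with hr
    set t : G ⧸ R := QuotientGroup.mk g⁻¹ with ht
    have hto : (QuotientGroup.mk t.out : G ⧸ R) = QuotientGroup.mk g⁻¹ := by
      rw [QuotientGroup.out_eq']
    have hh : t.out⁻¹ * g⁻¹ ∈ R := QuotientGroup.eq.1 hto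
    have h2 : (t.out)⁻¹ * r * t.out = (t.out⁻¹ * g⁻¹) * x * (t.out⁻¹ * g⁻¹)⁻¹ := by
      rw [← hg]; group
    have h3 : (t.out)⁻¹ * r * t.out ∈ R := by
      rw [h2]
      exact R.mul_mem (R.mul_mem hh hx) (R.inv_mem hh)
    refine ⟨(ConjClasses.mk x, t), ?_⟩
    change (if h : (t.out)⁻¹ * rep (ConjClasses.mk x) * t.out ∈ R then
      ConjClasses.mk (⟨_, h⟩ : R) else 1) = _
    rw [dif_pos h3, ConjClasses.mk_eq_mk_iff_isConj, isConj_comm, isConj_iff]
    refine ⟨⟨_, hh⟩, Subtype.ext ?_⟩
    exact h2.symm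
  exact Finite.of_surjective f hf

/-- The intersection of the normal subgroups of finite index. -/
def nres (G : Type*) [Group G] : Subgroup G :=
  ⨅ N : {N : Subgroup G // N.Normal ∧ N.FiniteIndex}, N.1

instance nres_normal : (nres G).Normal := normal_iInf_normal fun N => N.2.1

theorem nres_le (H : Subgroup G) [H.FiniteIndex] : nres G ≤ H :=
  (iInf_le (fun N : {N : Subgroup G // N.Normal ∧ N.FiniteIndex} => N.1)
    ⟨H.normalCore, inferInstance, inferInstance⟩).trans H.normalCore_le

theorem nres_finiteIndex [hc : Finite (ConjClasses G)] : (nres G).FiniteIndex := by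
  have := finite_normal (G := G)
  have : Finite {N : Subgroup G // N.Normal ∧ N.FiniteIndex} :=
    Finite.of_injective (fun N => (⟨N.1, N.2.1⟩ : {N : Subgroup G // N.Normal}))
      (fun N M h => Subtype.ext (by simpa using h))
  exact finiteIndex_iInf fun N => N.2.2

/-- The residual has no proper subgroup of finite index. -/
theorem nres_top [hc : Finite (ConjClasses G)] (H : Subgroup (nres G)) (hH : H.FiniteIndex) :
    H = ⊤ := by
  have h0 := nres_finiteIndex (G := G)
  have h1 : (H.map (nres G).subtype).FiniteIndex := by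
    constructor
    rw [index_map_subtype]
    exact mul_ne_zero hH.index_ne_zero h0.index_ne_zero
  have h2 := nres_le (H.map (nres G).subtype)
  rw [eq_top_iff]
  rintro ⟨x, hx⟩ -
  obtain ⟨y, hy, hyx⟩ := h2 hx
  have : y = ⟨x, hx⟩ := Subtype.ext hyx
  rwa [← this]

/-- A normal subgroup maximal among the proper ones gives a simple quotient. -/
theorem simple_of_max (N : Subgroup G) [hN : N.Normal] (hne : N ≠ ⊤)
    (hmax : ∀ M : Subgroup G, M.Normal → N ≤ M → M ≠ ⊤ → M = N) : IsSimpleGroup (G ⧸ N) := by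
  have hnt : Nontrivial (G ⧸ N) := by
    rw [QuotientGroup.nontrivial_iff]; exact hne
  refine { exists_pair_ne := hnt.exists_pair_ne, eq_bot_or_eq_top_of_normal := ?_ }
  intro M hM
  by_cases h : M.comap (QuotientGroup.mk' N) = ⊤
  · right
    rw [eq_top_iff]
    intro y _
    obtain ⟨x, rfl⟩ := QuotientGroup.mk'_surjective N y
    have : x ∈ M.comap (QuotientGroup.mk' N) := h ▸ mem_top x
    exact this
  · left
    have h1 := hmax _ (hM.comap _) (by
      intro x hx
      change (QuotientGroup.mk x : G ⧸ N) ∈ M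
      rw [(QuotientGroup.eq_one_iff x).2 hx]
      exact one_mem _) h
    rw [eq_bot_iff]
    intro y hy
    obtain ⟨x, rfl⟩ := QuotientGroup.mk'_surjective N y
    have h2 : x ∈ M.comap (QuotientGroup.mk' N) := hy
    rw [h1] at h2
    exact (QuotientGroup.eq_one_iff x).2 h2

/-- Reduction to simple groups. -/
theorem exists_simple (R : Type*) [Group R] [Nontrivial R] [hc : Finite (ConjClasses R)] :
    ∃ (N : Subgroup R) (_ : N.Normal), N ≠ ⊤ ∧ IsSimpleGroup (R ⧸ N) := by
  have := finite_normal (G := R)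
  have hfin : Finite {N : Subgroup R // N.Normal ∧ N ≠ ⊤} :=
    Finite.of_injective (fun N => (⟨N.1, N.2.1⟩ : {N : Subgroup R // N.Normal}))
      (fun N M h => Subtype.ext (by simpa using h))
  have hne : Nonempty {N : Subgroup R // N.Normal ∧ N ≠ ⊤} := ⟨⟨⊥, inferInstance, bot_ne_top⟩⟩
  obtain ⟨N, -, hN⟩ := (Set.finite_univ (α := {N : Subgroup R // N.Normal ∧ N ≠ ⊤})).exists_maximal
    Set.univ_nonempty
  refine ⟨N.1, N.2.1, N.2.2, ?_⟩
  have := N.2.1
  refine simple_of_max N.1 N.2.2 ?_
  intro M hM hNM hMt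
  exact le_antisymm (hN (y := ⟨M, hM, hMt⟩) trivial hNM) hNM

/-- The dichotomy. -/
theorem dichotomy (Q : Type*) [Group Q] [hc : Finite (ConjClasses Q)] :
    (∃ n : ℕ, 0 < n ∧ ∀ q : Q, q ^ n = 1) ∨
      ∃ q : Q, ¬ IsOfFinOrder q ∧ ∃ m n : ℕ, 0 < m ∧ m < n ∧ IsConj (q ^ m) (q ^ n) := by
  classical
  by_cases h : ∀ q : Q, IsOfFinOrder q
  · left
    have := Fintype.ofFinite (ConjClasses Q)
    choose rep hrep using (ConjClasses.exists_rep : ∀ a : ConjClasses Q, _)
    refine ⟨∏ c : ConjClasses Q, orderOf (rep c),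
      Finset.prod_pos fun c _ => (h (rep c)).orderOf_pos, ?_⟩
    intro q
    have h1 : IsConj (rep (ConjClasses.mk q)) q :=
      ConjClasses.mk_eq_mk_iff_isConj.1 (hrep _)
    obtain ⟨c, hc⟩ := isConj_iff.1 h1
    have h2 : rep (ConjClasses.mk q) ^ (∏ c : ConjClasses Q, orderOf (rep c)) = 1 :=
      orderOf_dvd_iff_pow_eq_one.1 (Finset.dvd_prod_of_mem (fun c => orderOf (rep c))
        (Finset.mem_univ _))
    rw [← hc, conj_pow, h2, mul_one, mul_inv_cancel]
  · right
    push Not at h
    obtain ⟨q, hq⟩ := h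
    refine ⟨q, hq, ?_⟩
    obtain ⟨m, n, hmn, he⟩ := Finite.exists_ne_map_eq_of_infinite
      (fun n : ℕ => ConjClasses.mk (q ^ (n + 1)))
    have he' : IsConj (q ^ (m + 1)) (q ^ (n + 1)) := ConjClasses.mk_eq_mk_iff_isConj.1 he
    rcases lt_or_gt_of_ne hmn with h1 | h1
    · exact ⟨m + 1, n + 1, by omega, by omega, he'⟩
    · exact ⟨n + 1, m + 1, by omega, by omega, he'.symm⟩

/-- Type (6). -/
theorem type6 [hfp : Group.IsFinitelyPresented G] [hi : Infinite G]
    [hc : Finite (ConjClasses G)] :
    ∃ (R : Subgroup G), R.Normal ∧ R.FiniteIndex ∧ Group.IsFinitelyPresented R ∧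
      (∀ H : Subgroup R, H.FiniteIndex → H = ⊤) ∧
      ∃ (N : Subgroup R) (_ : N.Normal), Infinite (R ⧸ N) ∧ IsSimpleGroup (R ⧸ N) ∧
        Group.IsFinitelyPresented (R ⧸ N) ∧ Finite (ConjClasses (R ⧸ N)) := by
  have h0 := nres_finiteIndex (G := G)
  have h1 : Finite (ConjClasses (nres G)) := finite_cc_subgroup _
  have h2 : Infinite (nres G) := by
    by_contra hfin
    have hfin' : Finite (nres G) := not_infinite_iff_finite.1 hfin
    have h3 : Nat.card G ≠ 0 := by
      rw [← (nres G).card_mul_index]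
      exact mul_ne_zero Nat.card_pos.ne' h0.index_ne_zero
    exact h3 (Nat.card_eq_zero_of_infinite)
  have h3 : Group.IsFinitelyPresented (nres G) := fp_of_finiteIndex _
  refine ⟨nres G, inferInstance, h0, h3, nres_top, ?_⟩
  obtain ⟨N, hN, hNt, hs⟩ := exists_simple (nres G)
  refine ⟨N, hN, ?_, hs, Group.IsFinitelyPresented.quotient N (fng_of_finite N),
    finite_cc_quotient N⟩
  by_contra hfin
  have hfin' : Finite (nres G ⧸ N) := not_infinite_iff_finite.1 hfin
  exact hNt (nres_top N (finiteIndex_of_finite_quotient))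

end Pool.Agent.X277.Mon
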