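import Mathlib
import Pool.Agent.X277.Mon.CC

set_option autoImplicit false

namespace Pool.Agent.X277.Mon

open Subgroup
open scoped commutatorElement

variable {G : Type*} [Group G]

/-- The group is not cyclic and each proper subgroup is cyclic. -/
def ProperCyclic (G : Type*) [Group G] : Prop :=
  ¬ IsCyclic G ∧ ∀ H : Subgroup G, H ≠ ⊤ → IsCyclic H

theorem ProperCyclic.comm_of_mem (h3 : ProperCyclic G) {H : Subgroup G} (hH : H ≠ ⊤) {x y : G}
    (hx : x ∈ H) (hy : y ∈ H) : x * y = y * x := by
  obtain ⟨g, hg⟩ := (H.isCyclic_iff_exists_zpowers_eq_top).1 (h3.2 H hH)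
  rw [← hg] at hx hy
  obtain ⟨i, rfl⟩ := mem_zpowers_iff.1 hx
  obtain ⟨j, rfl⟩ := mem_zpowers_iff.1 hy
  rw [← zpow_add, ← zpow_add, add_comm]

/-- If a cyclic subgroup and a finite normal subgroup generate the group, and the generator has
finite order, the group is finite. -/
theorem finite_of_sup {N : Subgroup G} [hN : N.Normal] (hNf : Finite N) {t : G}
    (ht : IsOfFinOrder t) (h : zpowers t ⊔ N = ⊤) : Finite G := by
  have h1 : Finite (zpowers t) := ht.finite_zpowers.to_subtype
  have hs : Function.Surjective (fun p : zpowers t × N => (p.1 : G) * (p.2 : G)) := by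
    intro x
    have hx : x ∈ zpowers t ⊔ N := h ▸ mem_top x
    obtain ⟨y, hy, z, hz, hyz⟩ := mem_sup_of_normal_right.1 hx
    exact ⟨(⟨y, hy⟩, ⟨z, hz⟩), hyz⟩
  exact Finite.of_surjective _ hs

/-- Proper normal subgroups are central. -/
theorem ProperCyclic.normal_le_center [hi : Infinite G] (h3 : ProperCyclic G) (N : Subgroup G)
    [hN : N.Normal] (hNt : N ≠ ⊤) : N ≤ center G := by
  obtain ⟨c, hc⟩ := (N.isCyclic_iff_exists_zpowers_eq_top).1 (h3.2 N hNt)
  have hcN : c ∈ N := hc ▸ mem_zpowers c
  have key : ∀ t : G, t * c = c * t := by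
    intro t
    by_cases hcf : IsOfFinOrder c
    · have hNf : Finite N := by
        rw [← hc]
        exact hcf.finite_zpowers.to_subtype
      have hq : ∀ q : ℕ, 2 ≤ q → t ^ q * c = c * t ^ q := by
        intro q hq
        have hne : zpowers (t ^ q) ⊔ N ≠ ⊤ := by
          intro htop
          have ht : t ∈ zpowers (t ^ q) ⊔ N := htop ▸ mem_top t
          obtain ⟨y, hy, z, hz, hyz⟩ := mem_sup_of_normal_right.1 ht
          obtain ⟨i, rfl⟩ := mem_zpowers_iff.1 hy
          have hz' : z = t ^ (1 - q * i : ℤ) := by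
            have : z = ((t ^ q) ^ i)⁻¹ * t := by
              rw [eq_inv_mul_iff_mul_eq]
              exact hyz
            rw [this, zpow_sub, zpow_one, zpow_mul, zpow_natCast]
            exact ((((Commute.refl t).pow_left q).zpow_left i).inv_left).eq
          have hzf : IsOfFinOrder z := by
            have := isOfFinOrder_of_finite (⟨z, hz⟩ : N)
            exact (Submonoid.isOfFinOrder_coe (H := N.toSubmonoid) (x := ⟨z, hz⟩)).2 this
          have htf : IsOfFinOrder t := by
            rw [hz', isOfFinOrder_iff_zpow_eq_one] at hzf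
            obtain ⟨n, hn, hn1⟩ := hzf
            rw [isOfFinOrder_iff_zpow_eq_one]
            refine ⟨(1 - q * i) * n, mul_ne_zero ?_ hn, by rw [zpow_mul]; exact hn1⟩
            intro h0
            have h1 : (q : ℤ) ∣ 1 := ⟨i, by linarith⟩
            have h2 := Int.le_of_dvd one_pos h1
            omega
          have := finite_of_sup hNf htf.pow htop
          exact not_finite G
        exact h3.comm_of_mem hne ((le_sup_left : zpowers (t ^ q) ≤ _) (mem_zpowers _))
          ((le_sup_right : N ≤ _) hcN)
      have h2 : Commute (t ^ 2) c := hq 2 le_rfl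
      have h3' : Commute (t ^ 3) c := hq 3 (by norm_num)
      have h4 : Commute ((t ^ 2)⁻¹ * t ^ 3) c := h2.inv_left.mul_left h3'
      have h5 : (t ^ 2)⁻¹ * t ^ 3 = t := by
        rw [pow_succ t 2, inv_mul_cancel_left]
      rw [h5] at h4
      exact h4.eq
    · -- infinite order
      have hinj : ∀ n : ℤ, c ^ n = 1 → n = 0 := by
        intro n hn
        by_contra h0
        exact hcf (isOfFinOrder_iff_zpow_eq_one.2 ⟨n, h0, hn⟩)
      have hconj : ∀ g : G, ∃ a : ℤ, g * c * g⁻¹ = c ^ a := by
        intro g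
        have h1 : g * c * g⁻¹ ∈ zpowers c := by
          have h2 : g * c * g⁻¹ ∈ N := hN.conj_mem c hcN g
          rwa [← hc] at h2
        obtain ⟨a, ha⟩ := mem_zpowers_iff.1 h1
        exact ⟨a, ha.symm⟩
      obtain ⟨a, ha⟩ := hconj t
      obtain ⟨b, hb⟩ := hconj t⁻¹
      rw [inv_inv] at hb
      have hab : c ^ (a * b) = c := by
        rw [zpow_mul, ← ha, conj_zpow, ← hb]
        group
      have hab1 : a * b = 1 := by
        have h1 : c ^ (a * b - 1) = 1 := by
          rw [zpow_sub, zpow_one, hab, mul_inv_cancel]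
        have := hinj _ h1
        omega
      rcases Int.eq_one_or_neg_one_of_mul_eq_one hab1 with h1 | h1
      · rw [h1, zpow_one] at ha
        rw [mul_inv_eq_iff_eq_mul] at ha
        exact ha
      · exfalso
        rw [h1] at ha
        have hcc : ∀ k : ℤ, t * c ^ k * t⁻¹ = c ^ (-k) := by
          intro k
          rw [← conj_zpow, ha, ← zpow_mul, neg_one_mul]
        have hM : (zpowers (c ^ (2 : ℤ))).Normal := by
          constructor
          intro n hn g
          obtain ⟨i, rfl⟩ := mem_zpowers_iff.1 hn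
          obtain ⟨e, he⟩ := hconj g
          rw [mem_zpowers_iff]
          refine ⟨e * i, ?_⟩
          rw [← zpow_mul, ← zpow_mul, ← conj_zpow, he, ← zpow_mul]
          congr 1
          ring
        have hne : zpowers t ⊔ zpowers (c ^ (2 : ℤ)) ≠ ⊤ := by
          intro htop
          have h2 : c ∈ zpowers t ⊔ zpowers (c ^ (2 : ℤ)) := htop ▸ mem_top c
          obtain ⟨y, hy, z, hz, hyz⟩ := mem_sup_of_normal_right.1 h2
          obtain ⟨i, rfl⟩ := mem_zpowers_iff.1 hy
          obtain ⟨j, rfl⟩ := mem_zpowers_iff.1 hz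
          have h4 : t ^ i = c ^ (1 - 2 * j) := by
            rw [zpow_sub, zpow_one, zpow_mul, eq_mul_inv_iff_mul_eq]
            exact hyz
          have h5 : t * t ^ i * t⁻¹ = t ^ i := by
            rw [mul_inv_eq_iff_eq_mul]
            exact ((Commute.refl t).zpow_right i).eq
          rw [h4, hcc] at h5
          have h6 : c ^ (2 * (1 - 2 * j)) = 1 := by
            have h7 : (2 * (1 - 2 * j) : ℤ) = (1 - 2 * j) - (-(1 - 2 * j)) := by ring
            rw [h7, zpow_sub, h5, mul_inv_cancel]
          have := hinj _ h6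
          omega
        have h7 := h3.comm_of_mem hne
          ((le_sup_left : zpowers t ≤ _) (mem_zpowers _))
          ((le_sup_right : zpowers (c ^ (2 : ℤ)) ≤ _) (mem_zpowers _))
        have h8 := hcc 2
        rw [h7, mul_inv_cancel_right] at h8
        have h9 : c ^ (4 : ℤ) = 1 := by
          have h7 : (4 : ℤ) = 2 - (-2) := by norm_num
          rw [h7, zpow_sub, ← h8, mul_inv_cancel]
        have := hinj _ h9
        omega
  intro x hx
  rw [← hc] at hx
  obtain ⟨i, rfl⟩ := mem_zpowers_iff.1 hx
  rw [mem_center_iff]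
  intro g
  exact ((show Commute g c from key g).zpow_right i).eq

/-- Perfectness. -/
theorem ProperCyclic.perfect [hi : Infinite G] (h3 : ProperCyclic G) (hab : center G ≠ ⊤) :
    _root_.commutator G = ⊤ := by
  by_contra hne
  have h1 := h3.normal_le_center (_root_.commutator G) hne
  obtain ⟨x, hx⟩ : ∃ x, x ∉ center G := by
    by_contra h
    push Not at h
    exact hab ((eq_top_iff' _).2 h)
  set M := zpowers x ⊔ center G with hM
  have hMn : M.Normal := by
    constructor
    intro n hn g
    obtain ⟨y, hy, z, hz, rfl⟩ := mem_sup_of_normal_right.1 hn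
    have h2 : ⁅g, y⁆ ∈ center G := h1 (commutator_mem_commutator (mem_top g) (mem_top y))
    have h3 : g * (y * z) * g⁻¹ = y * (z * ⁅g, y⁆) := by
      have h4 := mem_center_iff.1 hz
      have h5 := mem_center_iff.1 h2
      rw [← mul_assoc y z, h5 (y * z), commutatorElement_def]
      have h6 : g * (y * z) * g⁻¹ = g * y * (z * g⁻¹) := by group
      rw [h6, ← h4 g⁻¹]
      group
    rw [h3]
    exact mul_mem_sup hy ((center G).mul_mem hz h2)
  by_cases hMt : M = ⊤
  · apply hx
    rw [mem_center_iff]
    intro g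
    have hg : g ∈ M := hMt ▸ mem_top g
    obtain ⟨y, hy, z, hz, rfl⟩ := mem_sup_of_normal_right.1 hg
    obtain ⟨i, rfl⟩ := mem_zpowers_iff.1 hy
    have h4 := mem_center_iff.1 hz x
    rw [mul_assoc, ← h4, ← mul_assoc, ← mul_assoc, ((Commute.refl x).zpow_left i).eq]
  · exact hx (h3.normal_le_center M hMt ((le_sup_left : zpowers x ≤ _) (mem_zpowers x)))

/-- The quotient by the center is infinite. -/
theorem ProperCyclic.infinite_quotient [hi : Infinite G] (h3 : ProperCyclic G)
    (hab : center G ≠ ⊤) : Infinite (G ⧸ center G) := by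
  by_contra hfin
  have hfin' : Finite (G ⧸ center G) := not_infinite_iff_finite.1 hfin
  have h1 : Finite (commutatorSet G) := by
    have hs : commutatorSet G ⊆ Set.range (fun p : (G ⧸ center G) × (G ⧸ center G) =>
        ⁅p.1.out, p.2.out⁆) := by
      rintro _ ⟨g₁, g₂, rfl⟩
      refine ⟨(QuotientGroup.mk g₁, QuotientGroup.mk g₂), ?_⟩
      obtain ⟨z₁, hz₁⟩ := QuotientGroup.mk_out_eq_mul (center G) g₁
      obtain ⟨z₂, hz₂⟩ := QuotientGroup.mk_out_eq_mul (center G) g₂
      change ⁅(QuotientGroup.mk g₁ : G ⧸ center G).out, (QuotientGroup.mk g₂ : G ⧸ center G).out⁆ = _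
      rw [hz₁, hz₂]
      have k1 : ∀ g : G, Commute g z₁ := fun g => mem_center_iff.1 z₁.2 g
      have k2 : ∀ g : G, Commute g z₂ := fun g => mem_center_iff.1 z₂.2 g
      rw [commutatorElement_def, commutatorElement_def, mul_inv_rev, mul_inv_rev]
      have e1 : g₁ * ↑z₁ * (g₂ * ↑z₂) * ((↑z₁)⁻¹ * g₁⁻¹) * ((↑z₂)⁻¹ * g₂⁻¹) =
          g₁ * (↑z₁ * (g₂ * ↑z₂) * (↑z₁)⁻¹) * g₁⁻¹ * ((↑z₂)⁻¹ * g₂⁻¹) := by group
      rw [e1, (k1 (g₂ * z₂)).symm.eq, mul_inv_cancel_right]
      have e2 : g₁ * (g₂ * ↑z₂) * g₁⁻¹ * ((↑z₂)⁻¹ * g₂⁻¹) =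
          g₁ * g₂ * (↑z₂ * g₁⁻¹ * (↑z₂)⁻¹) * g₂⁻¹ := by group
      rw [e2, (k2 g₁⁻¹).symm.eq, mul_inv_cancel_right]
    exact ((Set.finite_range _).subset hs).to_subtype
  have h2 : Finite (_root_.commutator G) := inferInstance
  rw [h3.perfect hab] at h2
  have : Finite G := Finite.of_equiv _ (topEquiv (G := G)).toEquiv
  exact not_finite G

theorem ProperCyclic.simple_quotient [hi : Infinite G] (h3 : ProperCyclic G)
    (hab : center G ≠ ⊤) : IsSimpleGroup (G ⧸ center G) := by
  refine simple_of_max _ hab ?_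
  intro M hM h1 h2
  exact le_antisymm (h3.normal_le_center M h2) h1

theorem ProperCyclic.quotient (h3 : ProperCyclic G)
    (hab : center G ≠ ⊤) : ProperCyclic (G ⧸ center G) := by
  refine ⟨?_, ?_⟩
  · intro hcyc
    apply hab
    rw [eq_top_iff]
    intro x _
    rw [mem_center_iff]
    intro g
    exact (isMulCommutative_of_isCyclic_quotient_center_self G).is_comm.comm g x
  · intro H hH
    have h1 : H.comap (QuotientGroup.mk' (center G)) ≠ ⊤ := by
      intro h
      apply hH
      rw [eq_top_iff]
      intro y _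
      obtain ⟨x, rfl⟩ := QuotientGroup.mk'_surjective _ y
      have : x ∈ H.comap (QuotientGroup.mk' (center G)) := h ▸ mem_top x
      exact this
    have h2 := h3.2 _ h1
    exact isCyclic_of_surjective
      ((QuotientGroup.mk' (center G)).subgroupComap H)
      ((QuotientGroup.mk' (center G)).subgroupComap_surjective_of_surjective H
        (QuotientGroup.mk'_surjective _))

/-- Infinite finitely generated groups whose proper subgroups are cyclic and which are not cyclic
are not commutative. -/
theorem ProperCyclic.not_comm [hi : Infinite G] [hfg : Group.FG G] (h3 : ProperCyclic G) :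
    center G ≠ ⊤ := by
  intro hab
  have hcomm : ∀ a b : G, a * b = b * a := by
    intro a b
    have : b ∈ center G := hab ▸ mem_top b
    exact mem_center_iff.1 this a
  let _ : CommGroup G := { (inferInstance : Group G) with mul_comm := hcomm }
  -- finite exponent implies finite
  have hexp : ∀ n : ℤ, n ≠ 0 → (∀ g : G, g ^ n = 1) → False := by
    intro n hn h
    have h1 : IsMulTorsion G := fun g => isOfFinOrder_iff_zpow_eq_one.2 ⟨n, hn, h g⟩
    have := CommGroup.finite_of_fg_isMulTorsion G h1
    exact not_finite G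
  -- the subgroup of p-th powers is proper
  have hprop : ∀ p : ℕ, 2 ≤ p → (powMonoidHom p : G →* G).range ≠ ⊤ := by
    intro p hp htop
    have hsurj : Function.Surjective (powMonoidHom p : G →* G) := MonoidHom.range_eq_top.1 htop
    have hfin : Module.Finite ℤ (Additive G) := Module.Finite.iff_addGroup_fg.2 inferInstance
    obtain ⟨r, hr, hr0⟩ := Submodule.exists_sub_one_mem_and_smul_eq_zero_of_fg_of_le_smul
      (R := ℤ) (M := Additive G) (Ideal.span {(p : ℤ)}) ⊤ hfin.fg_top (by
        intro x _
        obtain ⟨y, hy⟩ := hsurj x.toMul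
        have h1 : x = (p : ℤ) • (Additive.ofMul y) := by
          rw [← ofMul_toMul x, ← hy]
          simp
        rw [h1]
        exact Submodule.smul_mem_smul (Ideal.mem_span_singleton_self _) trivial)
    apply hexp r
    · rintro rfl
      rw [Ideal.mem_span_singleton] at hr
      have h1 : (p : ℤ) ∣ 1 := by
        have := hr.neg_right
        simpa using this
      have h2 := Int.le_of_dvd one_pos h1
      omega
    · intro g
      have := hr0 (Additive.ofMul g) trivial
      exact this
  -- torsion-free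
  have htf : ∀ x : G, IsOfFinOrder x → x = 1 := by
    intro x hx
    have hp : ∀ p : ℕ, 2 ≤ p → x ^ p = 1 := by
      intro p hp
      obtain ⟨u, hu⟩ := ((powMonoidHom p : G →* G).range.isCyclic_iff_exists_zpowers_eq_top).1
        (h3.2 _ (hprop p hp))
      have hu1 : ∀ n : ℤ, u ^ n = 1 → n = 0 := by
        intro n hn
        by_contra h0
        apply hexp (p * n) (mul_ne_zero (by positivity) h0)
        intro g
        have hg : g ^ p ∈ (powMonoidHom p : G →* G).range := ⟨g, rfl⟩
        rw [← hu] at hg
        obtain ⟨i, hi⟩ := mem_zpowers_iff.1 hg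
        rw [zpow_mul, zpow_natCast, ← hi, ← zpow_mul, mul_comm, zpow_mul, hn, one_zpow]
      have hg : x ^ p ∈ (powMonoidHom p : G →* G).range := ⟨x, rfl⟩
      rw [← hu] at hg
      obtain ⟨i, hi⟩ := mem_zpowers_iff.1 hg
      obtain ⟨n, hn, hn1⟩ := isOfFinOrder_iff_zpow_eq_one.1 (hx.pow (n := p))
      rw [← hi, ← zpow_mul] at hn1
      have h0 := hu1 _ hn1
      have hi0 : i = 0 := by
        rcases mul_eq_zero.1 h0 with h | h
        · exact h
        · exact absurd h hn
      rw [← hi, hi0, zpow_zero]
    have h2 := hp 2 le_rfl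
    have h3 := hp 3 (by norm_num)
    rw [pow_succ, h2, one_mul] at h3
    exact h3
  have hinj : Function.Injective (powMonoidHom 2 : G →* G) := by
    rw [injective_iff_map_eq_one]
    intro x hx
    exact htf x (isOfFinOrder_iff_pow_eq_one.2 ⟨2, by norm_num, hx⟩)
  have hcyc : IsCyclic (powMonoidHom 2 : G →* G).range := h3.2 _ (hprop 2 le_rfl)
  apply h3.1
  exact isCyclic_of_injective (powMonoidHom 2 : G →* G).rangeRestrict
    (by
      intro a b hab
      exact hinj (congrArg Subtype.val hab))

end Pool.Agent.X277.Mon
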