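import Mathlib
import Pool.Agent.X277.Mon.T3

set_option autoImplicit false

namespace Pool.Agent.X277.Mon

open Subgroup
open scoped commutatorElement

variable {S : Type*} [Group S]

theorem ProperCyclic.center_bot (h3 : ProperCyclic S) [hs : IsSimpleGroup S] : center S = ⊥ := by
  rcases IsSimpleGroup.eq_bot_or_eq_top_of_normal (center S) inferInstance with h | h
  · exact h
  · exfalso
    have hcomm : ∀ a b : S, a * b = b * a := by
      intro a b
      have : b ∈ center S := h ▸ mem_top b
      exact mem_center_iff.1 this a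
    let _ : CommGroup S := { (inferInstance : Group S) with mul_comm := hcomm }
    exact h3.1 inferInstance

/-- Centralizers of nontrivial elements are proper, hence cyclic. -/
theorem ProperCyclic.centralizer_ne_top (h3 : ProperCyclic S) [hs : IsSimpleGroup S] {x : S}
    (hx : x ≠ 1) : centralizer {x} ≠ ⊤ := by
  intro h
  apply hx
  have h1 : x ∈ center S := by
    rw [mem_center_iff]
    intro g
    have hg : g ∈ centralizer {x} := h ▸ mem_top g
    exact ((mem_centralizer_singleton_iff).1 hg)
  rw [h3.center_bot] at h1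
  exact mem_bot.1 h1

theorem ProperCyclic.centralizer_eq (h3 : ProperCyclic S) [hs : IsSimpleGroup S] {x y : S}
    (hx : x ≠ 1) (hy : y ≠ 1) (hxy : y * x = x * y) : centralizer {y} = centralizer {x} := by
  have key : ∀ a b : S, a ≠ 1 → b ≠ 1 → b * a = a * b → centralizer {a} ≤ centralizer {b} := by
    intro a b ha hb hab g hg
    rw [mem_centralizer_singleton_iff]
    have h1 : b ∈ centralizer {a} := mem_centralizer_singleton_iff.2 hab
    exact h3.comm_of_mem (h3.centralizer_ne_top ha) hg h1
  exact le_antisymm (key y x hy hx hxy.symm) (key x y hx hy hxy)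

/-- Centralizers of nontrivial elements are malnormal. -/
theorem ProperCyclic.malnormal (h3 : ProperCyclic S) [hs : IsSimpleGroup S] {x y g : S}
    (hx : x ≠ 1) (hy : y ≠ 1) (hyx : y ∈ centralizer {x})
    (hg : g * y * g⁻¹ ∈ centralizer {x}) : g ∈ centralizer {x} := by
  have hy' : g * y * g⁻¹ ≠ 1 := by
    intro h
    apply hy
    have : y = g⁻¹ * (g * y * g⁻¹) * g := by group
    rw [this, h]; group
  have e1 := h3.centralizer_eq hx hy (mem_centralizer_singleton_iff.1 hyx)
  have e2 := h3.centralizer_eq hx hy' (mem_centralizer_singleton_iff.1 hg)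
  -- conjugation by g preserves the centralizer
  have hconj : ∀ z : S, z ∈ centralizer {x} ↔ g * z * g⁻¹ ∈ centralizer {x} := by
    intro z
    rw [← e2]
    nth_rewrite 1 [e2]
    rw [← e1, mem_centralizer_singleton_iff, mem_centralizer_singleton_iff]
    constructor
    · intro h
      have : g * z * g⁻¹ * (g * y * g⁻¹) = g * (z * y) * g⁻¹ := by group
      rw [this, h]; group
    · intro h
      have h1 : g * (z * y) * g⁻¹ = g * (y * z) * g⁻¹ := by
        have a1 : g * z * g⁻¹ * (g * y * g⁻¹) = g * (z * y) * g⁻¹ := by group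
        have a2 : g * y * g⁻¹ * (g * z * g⁻¹) = g * (y * z) * g⁻¹ := by group
        rw [← a1, ← a2]; exact h
      exact mul_left_cancel (mul_right_cancel h1)
  have hnorm : g ∈ normalizer (centralizer {x} : Set S) := by
    rw [mem_normalizer_iff]
    exact hconj
  have hnt : normalizer (centralizer {x} : Set S) ≠ ⊤ := by
    intro h
    have hn : (centralizer {x}).Normal := by
      rwa [← normalizer_eq_top_iff]
    rcases IsSimpleGroup.eq_bot_or_eq_top_of_normal (centralizer {x}) hn with h' | h'
    · apply hx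
      have : x ∈ centralizer {x} := mem_centralizer_singleton_iff.2 rfl
      rw [h'] at this
      exact mem_bot.1 this
    · exact h3.centralizer_ne_top hx h'
  have hxn : x ∈ normalizer (centralizer {x} : Set S) :=
    le_normalizer (mem_centralizer_singleton_iff.2 rfl)
  rw [mem_centralizer_singleton_iff]
  exact h3.comm_of_mem hnt hnorm hxn

/-- Different powers of an element of infinite order are not conjugate. -/
theorem ProperCyclic.not_conj (h3 : ProperCyclic S) [hs : IsSimpleGroup S] {q : S}
    (hq : ¬ IsOfFinOrder q) {m n : ℕ} (hm : 0 < m) (hmn : m < n) :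
    ¬ IsConj (q ^ m) (q ^ n) := by
  intro h
  obtain ⟨g, hg⟩ := isConj_iff.1 h
  have hq1 : q ≠ 1 := by
    rintro rfl
    exact hq IsOfFinOrder.one
  have hqm : q ^ m ≠ 1 := fun h => hq (isOfFinOrder_iff_pow_eq_one.2 ⟨m, hm, h⟩)
  have h1 : ∀ k : ℕ, q ^ k ∈ centralizer {q} := fun k =>
    mem_centralizer_singleton_iff.2 ((Commute.refl q).pow_left k).eq
  have h2 := h3.malnormal hq1 hqm (h1 m) (g := g) (by rw [hg]; exact h1 n)
  have h3' : Commute g q := mem_centralizer_singleton_iff.1 h2
  rw [(h3'.pow_right m).eq, mul_inv_cancel_right] at hg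
  apply hq
  rw [isOfFinOrder_iff_pow_eq_one]
  refine ⟨n - m, by omega, ?_⟩
  have : q ^ n = q ^ m * q ^ (n - m) := by rw [← pow_add]; congr 1; omega
  rw [this] at hg
  exact left_eq_mul.1 hg

/-- A simple group of type (3) is not divisible. -/
theorem ProperCyclic.not_complete (h3 : ProperCyclic S) [hs : IsSimpleGroup S] :
    ¬ ∀ g : S, ∀ m : ℕ, 0 < m → ∃ h : S, h ^ m = g := by
  intro hd
  obtain ⟨x, hx⟩ := exists_ne (1 : S)
  obtain ⟨c, hc⟩ := ((centralizer {x}).isCyclic_iff_exists_zpowers_eq_top).1
    (h3.2 _ (h3.centralizer_ne_top hx))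
  have hc1 : c ≠ 1 := by
    rintro rfl
    rw [zpowers_one_eq_bot] at hc
    apply hx
    have : x ∈ centralizer {x} := mem_centralizer_singleton_iff.2 rfl
    rw [← hc] at this
    exact mem_bot.1 this
  have hroot : ∀ m : ℕ, 0 < m → ∃ i : ℤ, c ^ (i * m) = c := by
    intro m hm
    obtain ⟨h, hh⟩ := hd c m hm
    have hcc : c * h = h * c := by
      rw [← hh]
      exact ((Commute.refl h).pow_left m).eq
    have hcx : c ∈ centralizer {x} := hc ▸ mem_zpowers c
    have e1 := h3.centralizer_eq hx hc1 (mem_centralizer_singleton_iff.1 hcx)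
    have hh1 : h ∈ centralizer {x} := by
      rw [← e1, mem_centralizer_singleton_iff]
      exact hcc.symm
    rw [← hc] at hh1
    obtain ⟨i, hi⟩ := mem_zpowers_iff.1 hh1
    refine ⟨i, ?_⟩
    rw [zpow_mul, zpow_natCast, hi, hh]
  by_cases hcf : IsOfFinOrder c
  · have hpos := hcf.orderOf_pos
    obtain ⟨i, hi⟩ := hroot (orderOf c) hpos
    rw [mul_comm, zpow_mul, zpow_natCast, pow_orderOf_eq_one, one_zpow] at hi
    exact hc1 hi.symm
  · obtain ⟨i, hi⟩ := hroot 2 (by norm_num)
    have h1 : c ^ (i * 2 - 1) = 1 := by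
      rw [zpow_sub, zpow_one]
      have : c ^ (i * 2) = c := by exact_mod_cast hi
      rw [this, mul_inv_cancel]
    apply hcf
    rw [isOfFinOrder_iff_zpow_eq_one]
    exact ⟨i * 2 - 1, by omega, h1⟩

/-- Type (4). -/
theorem type4 {G : Type*} [Group G] [hi : Infinite G] {p : ℕ} (hp : p.Prime)
    (h4 : ∀ H : Subgroup G, H ≠ ⊥ → H ≠ ⊤ → IsCyclic H ∧ Nat.card H = p) :
    IsSimpleGroup G ∧ ProperCyclic G ∧ ∀ g : G, g ^ p = 1 := by
  have hz : ∀ g : G, g ≠ 1 → Nat.card (zpowers g) = p := by
    intro g hg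
    by_cases ht : zpowers g = ⊤
    · exfalso
      have hinf : ¬ IsOfFinOrder g := by
        intro h
        have h1 : Finite (zpowers g) := h.finite_zpowers.to_subtype
        rw [ht] at h1
        have : Finite G := Finite.of_equiv _ (topEquiv (G := G)).toEquiv
        exact not_finite G
      have hg2 : zpowers (g ^ 2) ≠ ⊤ := by
        intro h
        have h1 : g ∈ zpowers (g ^ 2) := h ▸ mem_top g
        obtain ⟨i, hi⟩ := mem_zpowers_iff.1 h1
        apply hinf
        rw [isOfFinOrder_iff_zpow_eq_one]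
        refine ⟨2 * i - 1, by omega, ?_⟩
        rw [zpow_sub, zpow_one, zpow_mul]
        have : (g ^ (2 : ℤ)) ^ i = g := by exact_mod_cast hi
        rw [this, mul_inv_cancel]
      have hg2' : zpowers (g ^ 2) ≠ ⊥ := by
        intro h
        rw [zpowers_eq_bot] at h
        exact hinf (isOfFinOrder_iff_pow_eq_one.2 ⟨2, by norm_num, h⟩)
      have h1 := (h4 _ hg2' hg2).2
      have h2 : Finite (zpowers (g ^ 2)) := Nat.finite_of_card_ne_zero (by rw [h1]; exact hp.ne_zero)
      have h3 : IsOfFinOrder (g ^ 2) := finite_zpowers.1 (Set.toFinite _)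
      exact hinf (h3.of_pow (by norm_num))
    · exact (h4 _ (zpowers_ne_bot.2 hg) ht).2
  have hexp : ∀ g : G, g ^ p = 1 := by
    intro g
    by_cases hg : g = 1
    · rw [hg, one_pow]
    · rw [← hz g hg, Nat.card_zpowers, pow_orderOf_eq_one]
  have h3 : ProperCyclic G := by
    refine ⟨?_, ?_⟩
    · intro hc
      obtain ⟨g, hg⟩ := isCyclic_iff_exists_zpowers_eq_top.1 hc
      have hf : Finite (zpowers g) :=
        (isOfFinOrder_iff_pow_eq_one.2 ⟨p, hp.pos, hexp g⟩ : IsOfFinOrder g).finite_zpowers.to_subtype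
      rw [hg] at hf
      have : Finite G := Finite.of_equiv _ (topEquiv (G := G)).toEquiv
      exact not_finite G
    · intro H hH
      by_cases hb : H = ⊥
      · rw [hb]; infer_instance
      · exact (h4 H hb hH).1
  refine ⟨?_, h3, hexp⟩
  have hnt : Nontrivial G := inferInstance
  refine { exists_pair_ne := hnt.exists_pair_ne, eq_bot_or_eq_top_of_normal := ?_ }
  intro N hN
  by_contra hcon
  push Not at hcon
  obtain ⟨hb, ht⟩ := hcon
  have hcard := (h4 N hb ht).2
  have hNf : Finite N := Nat.finite_of_card_ne_zero (by rw [hcard]; exact hp.ne_zero)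
  obtain ⟨g, hg⟩ : ∃ g, g ∉ N := by
    by_contra h
    push Not at h
    exact ht ((eq_top_iff' _).2 h)
  have hM : zpowers g ⊔ N ≠ ⊤ := by
    intro h
    have := finite_of_sup hNf (isOfFinOrder_iff_pow_eq_one.2 ⟨p, hp.pos, hexp g⟩) h
    exact not_finite G
  have hM' : zpowers g ⊔ N ≠ ⊥ := by
    intro h
    apply hb
    rw [eq_bot_iff, ← h]
    exact le_sup_right
  have hMc := (h4 _ hM' hM).2
  have : N = zpowers g ⊔ N := by
    have hMf : Finite (zpowers g ⊔ N : Subgroup G) :=
      Nat.finite_of_card_ne_zero (by rw [hMc]; exact hp.ne_zero)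
    apply SetLike.coe_injective
    apply Set.eq_of_subset_of_ncard_le
    · exact (le_sup_right : N ≤ zpowers g ⊔ N)
    · rw [← Nat.card_coe_set_eq, ← Nat.card_coe_set_eq]
      exact (hMc.trans hcard.symm).le
    · exact Set.toFinite _
  apply hg
  rw [this]
  exact (le_sup_left : zpowers g ≤ _) (mem_zpowers g)

end Pool.Agent.X277.Mon
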