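import Mathlib
import Pool.Agent.H895R2.SB.Act

set_option autoImplicit false

namespace Pool.Agent.X277.Mon

open Pool.Agent.H895R2.SB

variable {V : Type} {T : SimpleGraph V} {G : Type} [Group G] [MulAction G V]

/-- The core of Serre's lemma. -/
theorem serre_core (hT : T.IsTree) (hadj : ∀ (g : G) (u v : V), T.Adj u v → T.Adj (g • u) (g • v))
    {g h : G} {x y x₁ y₁ : V} (hx : g • x = x) (hy : h • y = y) (hxy : x ≠ y)
    (h1 : T.Adj x x₁) (h2 : T.dist x₁ y + 1 = T.dist x y) (h3 : T.Adj y y₁)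
    (h4 : T.dist y₁ x + 1 = T.dist y x) (hx₁ : g • x₁ ≠ x₁) (hy₁ : h • y₁ ≠ y₁) :
    ¬ ∃ p : V, (g * h) • p = p := by
  intro hgh
  have r1 := refl_dist hT hadj hx h1 h2 hx₁
  have r2 := refl_dist hT hadj hy h3 h4 hy₁
  have dxy := dcomm (T := T) x y
  set δ := T.dist x y with hδ
  have hδ0 : 0 < δ := by omega
  let u : ℕ → V := fun i => if i % 2 = 0 then (g * h) ^ (i / 2) • h⁻¹ • x else (g * h) ^ (i / 2) • y
  have hu0 : ∀ k, u (2 * k) = (g * h) ^ k • h⁻¹ • x := by
    intro k
    have e1 : 2 * k % 2 = 0 := by omega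
    have e2 : 2 * k / 2 = k := by omega
    simp only [u, e1, e2, if_true]
  have hu1 : ∀ k, u (2 * k + 1) = (g * h) ^ k • y := by
    intro k
    have e1 : (2 * k + 1) % 2 = 1 := by omega
    have e2 : (2 * k + 1) / 2 = k := by omega
    simp [u, e1, e2]
  have hinvx : g • h • h⁻¹ • x = x := by rw [smul_inv_smul, hx]
  have hL1 : ∀ i, T.dist (u i) (u (i + 1)) = δ := by
    intro i
    rcases Nat.even_or_odd' i with ⟨k, rfl | rfl⟩
    · rw [hu0, hu1, ds hT hadj]
      have := ds hT hadj h (h⁻¹ • x) y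
      rw [smul_inv_smul, hy] at this
      exact this.symm
    · have e : 2 * k + 1 + 1 = 2 * (k + 1) := by ring
      rw [hu1, e, hu0, pow_succ, mul_smul, ds hT hadj, mul_smul, hinvx]
      omega
  have hL2 : ∀ i, T.dist (u i) (u (i + 2)) = 2 * δ := by
    intro i
    rcases Nat.even_or_odd' i with ⟨k, rfl | rfl⟩
    · have e : 2 * k + 2 = 2 * (k + 1) := by ring
      rw [hu0, e, hu0, pow_succ, mul_smul, ds hT hadj, mul_smul, hinvx]
      have := ds hT hadj h (h⁻¹ • x) x
      rw [smul_inv_smul] at this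
      omega
    · have e : 2 * k + 1 + 2 = 2 * (k + 1) + 1 := by ring
      rw [hu1, e, hu1, pow_succ, mul_smul, ds hT hadj, mul_smul, hy]
      omega
  obtain ⟨p, hp⟩ := hgh
  set D := T.dist (h⁻¹ • x) p with hD
  have h5 := local_geo hT hδ0 u hL1 hL2 (2 * (D + 1)) 0
  rw [zero_add, hu0] at h5
  have h6 := hu0 0
  simp only [mul_zero, pow_zero, one_smul] at h6
  rw [h6] at h5
  have hpow : (g * h) ^ (D + 1) • p = p := by
    generalize D + 1 = n
    induction n with
    | zero => simp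
    | succ n ih => rw [pow_succ, mul_smul, hp, ih]
  have h7 := ds hT hadj ((g * h) ^ (D + 1)) (h⁻¹ • x) p
  rw [hpow] at h7
  have h8 := tri hT (h⁻¹ • x) p ((g * h) ^ (D + 1) • h⁻¹ • x)
  have d1 := dcomm (T := T) p ((g * h) ^ (D + 1) • h⁻¹ • x)
  have h9 : 2 * (D + 1) ≤ 2 * (D + 1) * δ := Nat.le_mul_of_pos_right _ hδ0
  omega

/-- Serre: a finitely generated group all of whose elements have fixed vertices has a global fixed
vertex. -/
theorem fixed_of_elliptic (hT : T.IsTree)
    (hadj : ∀ (g : G) (u v : V), T.Adj u v → T.Adj (g • u) (g • v))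
    (hell : ∀ g : G, ∃ v : V, g • v = v) (S : Finset G) :
    ∃ v : V, ∀ g ∈ Subgroup.closure (S : Set G), g • v = v := by
  classical
  induction S using Finset.induction_on with
  | empty =>
    obtain ⟨v⟩ := hT.connected.nonempty
    refine ⟨v, fun g hg => ?_⟩
    rw [Finset.coe_empty, Subgroup.closure_empty, Subgroup.mem_bot] at hg
    rw [hg, one_smul]
  | insert s S _ ih =>
    have hS : ∃ x : V, ∀ h ∈ Subgroup.closure (S : Set G), h • x = x := ih
    obtain ⟨x, y, hx, hy, hmin⟩ := exists_min_pair (T := T)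
      (P := fun x => ∀ h ∈ Subgroup.closure (S : Set G), h • x = x)
      (Q := fun y => s • y = y) hS (hell s)
    by_cases hxy : x = y
    · refine ⟨x, fun g hg => ?_⟩
      have h1 : Subgroup.closure ((insert s S : Finset G) : Set G) ≤ MulAction.stabilizer G x := by
        rw [Subgroup.closure_le]
        intro t ht
        rw [Finset.coe_insert, Set.mem_insert_iff] at ht
        rw [SetLike.mem_coe, MulAction.mem_stabilizer_iff]
        rcases ht with rfl | ht
        · rw [hxy]; exact hy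
        · exact hx t (Subgroup.subset_closure ht)
      exact MulAction.mem_stabilizer_iff.1 (h1 hg)
    · exfalso
      obtain ⟨x₁, h1, h2⟩ := toward hT hxy
      obtain ⟨y₁, h3, h4⟩ := toward hT (Ne.symm hxy)
      have hx₁ : ∃ h ∈ Subgroup.closure (S : Set G), h • x₁ ≠ x₁ := by
        by_contra hcon
        push Not at hcon
        have := hmin x₁ y hcon hy
        omega
      obtain ⟨h, hh, hx₁⟩ := hx₁
      have hy₁ : s • y₁ ≠ y₁ := fun h5 => by
        have := hmin x y₁ hx h5
        have d1 := dcomm (T := T) x y₁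
        have d2 := dcomm (T := T) x y
        omega
      exact serre_core hT hadj (hx h hh) hy hxy h1 h2 h3 h4 hx₁ hy₁ (hell _)

section

variable (hT : T.IsTree) (hadj : ∀ (g : G) (u v : V), T.Adj u v → T.Adj (g • u) (g • v))
  (hinv : ∀ (g : G) (u v : V), T.Adj u v → ¬ (g • u = v ∧ g • v = u))

include hT hadj hinv

/-- An element with conjugate powers `g ^ a`, `g ^ b`, `0 < a < b`, has a fixed vertex. -/
theorem elliptic_of_conj {g : G} {a b : ℕ} (hab : a < b)
    (hc : IsConj (g ^ a) (g ^ b)) : ∃ v : V, g • v = v := by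
  by_contra hg
  obtain ⟨x, hpos, h2⟩ := exists_axis hT hadj hinv g hg
  have hz := axis_dist hT hadj g x hpos h2
  obtain ⟨c, hc⟩ := isConj_iff.1 hc
  set L := T.dist x (g • x) with hL
  set d := T.dist x (c⁻¹ • x) with hd
  -- n = 2 * d + 1
  have h3 := hz (b * (2 * d + 1))
  have h4 := hz (a * (2 * d + 1))
  have h5 : g ^ (b * (2 * d + 1)) = c * g ^ (a * (2 * d + 1)) * c⁻¹ := by
    rw [pow_mul, pow_mul, ← hc, conj_pow]
  have h6 : T.dist x (g ^ (b * (2 * d + 1)) • x) =
      T.dist (c⁻¹ • x) (g ^ (a * (2 * d + 1)) • c⁻¹ • x) := by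
    rw [h5, mul_smul, mul_smul, ← ds hT hadj c (c⁻¹ • x), smul_inv_smul]
  have h7 := tri hT (c⁻¹ • x) x (g ^ (a * (2 * d + 1)) • c⁻¹ • x)
  have h8 := tri hT x (g ^ (a * (2 * d + 1)) • x) (g ^ (a * (2 * d + 1)) • c⁻¹ • x)
  rw [ds hT hadj] at h8
  have h9 := dcomm (T := T) (c⁻¹ • x) x
  have h10 : b * (2 * d + 1) * L ≥ (a + 1) * (2 * d + 1) * L :=
    Nat.mul_le_mul_right _ (Nat.mul_le_mul_right _ hab)
  have h11 : (a + 1) * (2 * d + 1) * L = a * (2 * d + 1) * L + (2 * d + 1) * L := by ring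
  have h12 : 2 * d + 1 ≤ (2 * d + 1) * L := Nat.le_mul_of_pos_right _ hpos
  omega

/-- An element with roots of all orders has a fixed vertex. -/
theorem elliptic_of_roots {g : G} (hr : ∀ m : ℕ, 1 ≤ m → ∃ h : G, h ^ m = g) :
    ∃ v : V, g • v = v := by
  by_contra hg
  obtain ⟨x, hpos, h2⟩ := exists_axis hT hadj hinv g hg
  have hz := axis_dist hT hadj g x hpos h2
  set L := T.dist x (g • x) with hL
  obtain ⟨h, hh⟩ := hr (L + 1) (by omega)
  have hne : ¬ ∃ v : V, h • v = v := by
    rintro ⟨v, hv⟩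
    apply hg
    refine ⟨v, ?_⟩
    rw [← hh]
    have : ∀ n : ℕ, h ^ n • v = v := by
      intro n
      induction n with
      | zero => simp
      | succ n ih => rw [pow_succ, mul_smul, hv, ih]
    exact this _
  obtain ⟨y, hpos', h2'⟩ := exists_axis hT hadj hinv h hne
  have hz' := axis_dist hT hadj h y hpos' h2'
  set M := T.dist y (h • y) with hM
  set d := T.dist x y with hd
  have h3 := hz (2 * d + 1)
  have h4 := hz' ((L + 1) * (2 * d + 1))
  rw [pow_mul, hh] at h4
  have h5 := tri hT y x (g ^ (2 * d + 1) • y)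
  have h6 := tri hT x (g ^ (2 * d + 1) • x) (g ^ (2 * d + 1) • y)
  rw [ds hT hadj] at h6
  have h7 := dcomm (T := T) y x
  have h8 : (L + 1) * (2 * d + 1) ≤ (L + 1) * (2 * d + 1) * M := Nat.le_mul_of_pos_right _ hpos'
  have h9 : (L + 1) * (2 * d + 1) = (2 * d + 1) * L + (2 * d + 1) := by ring
  omega

end

end Pool.Agent.X277.Mon
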