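import Mathlib
import Pool.Agent.X277.Mon.Tree
import Pool.Agent.X277.Mon.Mal

set_option autoImplicit false

namespace Pool.Agent.X277.Mon

open Subgroup Filter Topology

section

variable {G : Type*} [Group G]

/-- Every element has two different conjugate positive powers. -/
def ConjPowers (G : Type*) [Group G] : Prop :=
  ∀ g : G, ∃ a b : ℕ, 0 < a ∧ a < b ∧ IsConj (g ^ a) (g ^ b)

theorem conjPowers_of_exponent {n : ℕ} (hn : 1 ≤ n) (h : ∀ g : G, g ^ n = 1) : ConjPowers G := by
  intro g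
  refine ⟨n, 2 * n, hn, by omega, ?_⟩
  rw [h g, mul_comm, pow_mul, h g, one_pow]

theorem conjPowers_of_finite [hc : Finite (ConjClasses G)] : ConjPowers G := by
  intro g
  obtain ⟨m, n, hmn, he⟩ := Finite.exists_ne_map_eq_of_infinite
    (fun n : ℕ => ConjClasses.mk (g ^ (n + 1)))
  have he' : IsConj (g ^ (m + 1)) (g ^ (n + 1)) := ConjClasses.mk_eq_mk_iff_isConj.1 he
  rcases lt_or_gt_of_ne hmn with h1 | h1
  · exact ⟨m + 1, n + 1, by omega, by omega, he'⟩
  · exact ⟨n + 1, m + 1, by omega, by omega, he'.symm⟩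

/-- A homogeneous quasimorphism. -/
def HomQM (q : G → ℝ) : Prop :=
  (∃ D : ℝ, ∀ g h : G, |q (g * h) - q g - q h| ≤ D) ∧ ∀ (g : G) (n : ℕ), q (g ^ n) = n * q g

theorem HomQM.conj {q : G → ℝ} (hq : HomQM q) (c g : G) : q (c * g * c⁻¹) = q g := by
  obtain ⟨⟨D, hD⟩, hn⟩ := hq
  by_contra hne
  set δ := |q (c * g * c⁻¹) - q g| with hδ
  have hδ0 : 0 < δ := abs_pos.2 (sub_ne_zero.2 hne)
  obtain ⟨n, hn1⟩ := exists_nat_gt ((2 * D + |q c| + |q c⁻¹|) / δ)
  rw [div_lt_iff₀ hδ0] at hn1
  have h1 : q (c * g ^ n * c⁻¹) = n * q (c * g * c⁻¹) := by rw [← hn, conj_pow]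
  have h2 := hD (c * g ^ n) c⁻¹
  have h3 := hD c (g ^ n)
  rw [h1] at h2
  rw [hn] at h3
  have h4 : (n : ℝ) * δ ≤ 2 * D + |q c| + |q c⁻¹| := by
    have h5 : (n : ℝ) * δ = |n * q (c * g * c⁻¹) - n * q g| := by
      rw [hδ, ← mul_sub, abs_mul, Nat.abs_cast]
    rw [h5]
    have h6 : n * q (c * g * c⁻¹) - n * q g =
        (n * q (c * g * c⁻¹) - q (c * g ^ n) - q c⁻¹) + (q (c * g ^ n) - q c - n * q g) +
          q c⁻¹ + q c := by ring
    rw [h6]
    have h7 := abs_add_le ((n * q (c * g * c⁻¹) - q (c * g ^ n) - q c⁻¹) +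
      (q (c * g ^ n) - q c - n * q g) + q c⁻¹) (q c)
    have h8 := abs_add_le ((n * q (c * g * c⁻¹) - q (c * g ^ n) - q c⁻¹) +
      (q (c * g ^ n) - q c - n * q g)) (q c⁻¹)
    have h9 := abs_add_le (n * q (c * g * c⁻¹) - q (c * g ^ n) - q c⁻¹)
      (q (c * g ^ n) - q c - n * q g)
    linarith
  linarith

/-- Homogeneous quasimorphisms vanish. -/
theorem ConjPowers.qm (hG : ConjPowers G) {q : G → ℝ} (hq : HomQM q) (g : G) : q g = 0 := by
  obtain ⟨a, b, ha, hab, hc⟩ := hG g
  obtain ⟨c, hc⟩ := isConj_iff.1 hc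
  have h1 := hq.conj c (g ^ a)
  rw [hc, hq.2, hq.2] at h1
  have h2 : ((b : ℝ) - a) * q g = 0 := by linarith
  rcases mul_eq_zero.1 h2 with h3 | h3
  · exfalso
    have : (a : ℝ) < b := by exact_mod_cast hab
    linarith
  · exact h3

/-- Translation numbers vanish in all isometric actions. -/
theorem ConjPowers.translation (hG : ConjPowers G) {X : Type*} [PseudoMetricSpace X]
    [MulAction G X] [IsIsometricSMul G X] (g : G) (x : X) :
    Tendsto (fun n : ℕ => dist x (g ^ n • x) / n) atTop (𝓝 0) := by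
  obtain ⟨a, b, ha, hab, hc⟩ := hG g
  obtain ⟨c, hc⟩ := isConj_iff.1 hc
  let u : ℕ → ℝ := fun n => dist x (g ^ n • x)
  have hsub : Subadditive u := by
    intro m n
    have h1 := dist_triangle x (g ^ m • x) (g ^ (m + n) • x)
    have h2 : dist (g ^ m • x) (g ^ (m + n) • x) = u n := by
      rw [pow_add, mul_smul, dist_smul]
    change dist x (g ^ (m + n) • x) ≤ u m + u n
    rw [← h2]
    exact h1
  have hbdd : BddBelow (Set.range fun n => u n / n) := by
    refine ⟨0, ?_⟩
    rintro _ ⟨n, rfl⟩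
    exact div_nonneg dist_nonneg (Nat.cast_nonneg n)
  have hlim := hsub.tendsto_lim hbdd
  set L := hsub.lim with hL
  have hk : ∀ k : ℕ, 0 < k → Tendsto (fun n : ℕ => u (k * n) / n) atTop (𝓝 (k * L)) := by
    intro k hk
    have h1 : Tendsto (fun n : ℕ => k * n) atTop atTop :=
      tendsto_id.const_mul_atTop' hk
    have h2 := (hlim.comp h1).const_mul (k : ℝ)
    refine h2.congr' ?_
    filter_upwards [eventually_gt_atTop 0] with n hn
    have hn' : (n : ℝ) ≠ 0 := by exact_mod_cast hn.ne'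
    have hk' : (k : ℝ) ≠ 0 := by exact_mod_cast hk.ne'
    simp only [Function.comp]
    push_cast
    field_simp
  have hdiff : ∀ n : ℕ, |u (b * n) - u (a * n)| ≤ 2 * dist x (c⁻¹ • x) := by
    intro n
    have h5 : g ^ (b * n) = c * g ^ (a * n) * c⁻¹ := by
      rw [pow_mul, pow_mul, ← hc, conj_pow]
    have h6 : u (b * n) = dist (c⁻¹ • x) (g ^ (a * n) • c⁻¹ • x) := by
      change dist x (g ^ (b * n) • x) = _
      rw [h5, mul_smul, mul_smul, ← dist_smul c (c⁻¹ • x), smul_inv_smul]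
    rw [h6]
    change |dist (c⁻¹ • x) (g ^ (a * n) • c⁻¹ • x) - dist x (g ^ (a * n) • x)| ≤ _
    have h7 := dist_triangle4 (c⁻¹ • x) x (g ^ (a * n) • x) (g ^ (a * n) • c⁻¹ • x)
    have h8 := dist_triangle4 x (c⁻¹ • x) (g ^ (a * n) • c⁻¹ • x) (g ^ (a * n) • x)
    rw [dist_smul] at h7 h8
    rw [dist_comm (c⁻¹ • x) x] at h7 h8
    rw [abs_le]
    constructor <;> linarith
  have h0 : Tendsto (fun n : ℕ => u (b * n) / n - u (a * n) / n) atTop (𝓝 0) := by
    have h1 : Tendsto (fun n : ℕ => (2 * dist x (c⁻¹ • x)) / (n : ℝ)) atTop (𝓝 0) :=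
      tendsto_const_div_atTop_nhds_zero_nat _
    refine squeeze_zero_norm (fun n => ?_) h1
    rw [← sub_div, Real.norm_eq_abs, abs_div, Nat.abs_cast]
    exact div_le_div_of_nonneg_right (hdiff n) (Nat.cast_nonneg n)
  have h1 := (hk b (ha.trans hab)).sub (hk a ha)
  have h2 := tendsto_nhds_unique h0 h1
  have h3 : L = 0 := by
    have h4 : ((b : ℝ) - a) * L = 0 := by linarith
    rcases mul_eq_zero.1 h4 with h5 | h5
    · exfalso
      have : (a : ℝ) < b := by exact_mod_cast hab
      linarith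
    · exact h5
  rw [h3] at hlim
  exact hlim

end

/-- Property (FA): every action without inversions on a tree has a fixed vertex. -/
def FA (G : Type) [Group G] : Prop :=
  ∀ (V : Type) (T : SimpleGraph V) [MulAction G V], T.IsTree →
    (∀ (g : G) (u v : V), T.Adj u v → T.Adj (g • u) (g • v)) →
    (∀ (g : G) (u v : V), T.Adj u v → ¬ (g • u = v ∧ g • v = u)) →
    ∃ v : V, ∀ g : G, g • v = v

theorem fa_of_elliptic {G : Type} [Group G] [hfg : Group.FG G]
    (h : ∀ (V : Type) (T : SimpleGraph V) [MulAction G V], T.IsTree →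
    (∀ (g : G) (u v : V), T.Adj u v → T.Adj (g • u) (g • v)) →
    (∀ (g : G) (u v : V), T.Adj u v → ¬ (g • u = v ∧ g • v = u)) →
    ∀ g : G, ∃ v : V, g • v = v) : FA G := by
  intro V T _ hT hadj hinv
  obtain ⟨S, hS⟩ := hfg.out
  obtain ⟨v, hv⟩ := fixed_of_elliptic hT hadj (h V T hT hadj hinv) S
  exact ⟨v, fun g => hv g (hS ▸ mem_top g)⟩

theorem ConjPowers.fa {G : Type} [Group G] [hfg : Group.FG G] (hG : ConjPowers G) : FA G := by
  refine fa_of_elliptic fun _ _ _ hT hadj hinv g => ?_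
  obtain ⟨a, b, -, hab, hc⟩ := hG g
  exact elliptic_of_conj hT hadj hinv hab hc

theorem fa_of_complete {G : Type} [Group G] [hfg : Group.FG G]
    (hG : ∀ g : G, ∀ m : ℕ, 1 ≤ m → ∃ h : G, h ^ m = g) : FA G :=
  fa_of_elliptic fun _ _ _ hT hadj hinv g => elliptic_of_roots hT hadj hinv (hG g)

/-- Perfect groups with cyclic proper subgroups are not amalgamated products. -/
theorem ProperCyclic.no_amalgam {G : Type*} [Group G] (h3 : ProperCyclic G)
    (hp : _root_.commutator G = ⊤) {A : Bool → Type*} [∀ i, Group (A i)] {C : Type*} [Group C]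
    (φ : ∀ i, C →* A i) (hinj : ∀ i, Function.Injective (φ i))
    (hns : ∀ i, ¬ Function.Surjective (φ i)) (e : G ≃* Monoid.PushoutI φ) : False := by
  -- the factors are proper subgroups
  have hproper : ∀ i, (Monoid.PushoutI.of (φ := φ) i).range ≠ ⊤ := by
    intro i htop
    apply hns (!i)
    intro b
    have h1 : Monoid.PushoutI.of (φ := φ) (!i) b ∈ (Monoid.PushoutI.of (φ := φ) (!i)).range :=
      ⟨b, rfl⟩
    have h2 : Monoid.PushoutI.of (φ := φ) (!i) b ∈ (Monoid.PushoutI.of (φ := φ) i).range :=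
      htop ▸ mem_top _
    have h3 : Monoid.PushoutI.of (φ := φ) (!i) b ∈ (Monoid.PushoutI.base φ).range := by
      rw [← Monoid.PushoutI.inf_of_range_eq_base_range hinj
        (i := i) (j := !i) (by cases i <;> simp)]
      exact ⟨h2, h1⟩
    obtain ⟨c, hc⟩ := h3
    refine ⟨c, Monoid.PushoutI.of_injective hinj (!i) ?_⟩
    rw [Monoid.PushoutI.of_apply_eq_base]
    exact hc
  have hcomm : ∀ i, ∀ a b : A i, a * b = b * a := by
    intro i a b
    have h1 : ((Monoid.PushoutI.of (φ := φ) i).range.comap e.toMonoidHom) ≠ ⊤ := by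
      intro h
      apply hproper i
      rw [eq_top_iff]
      intro y _
      obtain ⟨x, rfl⟩ := e.surjective y
      have : x ∈ (Monoid.PushoutI.of (φ := φ) i).range.comap e.toMonoidHom := h ▸ mem_top x
      exact this
    have h2 := h3.comm_of_mem h1 (x := e.symm (Monoid.PushoutI.of (φ := φ) i a))
      (y := e.symm (Monoid.PushoutI.of (φ := φ) i b)) (by simp) (by simp)
    rw [← map_mul, ← map_mul, ← map_mul, ← map_mul] at h2
    exact Monoid.PushoutI.of_injective hinj i (e.symm.injective h2)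
  -- a homomorphism to an abelian group
  let _ : CommGroup (A true) := { (inferInstance : Group (A true)) with mul_comm := hcomm true }
  let N : Subgroup (A true) := (φ true).range
  let f : ∀ i, A i →* (A true ⧸ N) := fun i => match i with
    | true => QuotientGroup.mk' N
    | false => 1
  have hf : ∀ i, (f i).comp (φ i) = 1 := by
    intro i
    cases i with
    | true =>
      ext c
      exact (QuotientGroup.eq_one_iff _).2 ⟨c, rfl⟩
    | false => rfl
  let ψ : Monoid.PushoutI φ →* (A true ⧸ N) := Monoid.PushoutI.lift f 1 hf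
  have hψ : ∀ x : G, ψ (e x) = 1 := by
    intro x
    have hx : x ∈ _root_.commutator G := hp ▸ mem_top x
    have h1 : _root_.commutator G ≤ (ψ.comp e.toMonoidHom).ker := by
      rw [_root_.commutator_def, commutator_le]
      intro a _ b _
      rw [MonoidHom.mem_ker, map_commutatorElement, commutatorElement_eq_one_iff_mul_comm]
      exact mul_comm _ _
    exact h1 hx
  apply hns true
  intro a
  have h1 : ψ (Monoid.PushoutI.of (φ := φ) true a) = 1 := by
    rw [← e.apply_symm_apply (Monoid.PushoutI.of (φ := φ) true a)]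
    exact hψ _
  rw [Monoid.PushoutI.lift_of] at h1
  exact (QuotientGroup.eq_one_iff a).1 h1

end Pool.Agent.X277.Mon
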