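import Mathlib
import Pool.Agent.X277.Mon.CC

set_option autoImplicit false

namespace Pool.Agent.X277.Mon

open Subgroup

/-- The relator of the Baumslag-Solitar group BS(1, N): `t x t⁻¹ = x ^ N`, with `t` the generator
`true` and `x` the generator `false`. -/
def bsRel (N : ℕ) : Set (FreeGroup Bool) :=
  {FreeGroup.of true * FreeGroup.of false * (FreeGroup.of true)⁻¹ * ((FreeGroup.of false) ^ N)⁻¹}

/-- The Baumslag-Solitar group BS(1, N). -/
abbrev BS (N : ℕ) : Type := PresentedGroup (bsRel N)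

/-- The generator `t`. -/
def bt (N : ℕ) : BS N := PresentedGroup.of true

/-- The generator `x`. -/
def bx (N : ℕ) : BS N := PresentedGroup.of false

theorem bs_rel (N : ℕ) : bt N * bx N * (bt N)⁻¹ = bx N ^ N := by
  have h : PresentedGroup.mk (bsRel N) (FreeGroup.of true * FreeGroup.of false *
      (FreeGroup.of true)⁻¹ * ((FreeGroup.of false) ^ N)⁻¹) = 1 :=
    PresentedGroup.one_of_mem rfl
  simp only [map_mul, map_inv, map_pow] at h
  exact mul_inv_eq_one.1 h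

section Rel

variable {G : Type*} [Group G] {x g : G} {N : ℕ}

theorem conj_zpow_rel (h : g * x * g⁻¹ = x ^ N) (a : ℤ) : g * x ^ a * g⁻¹ = x ^ ((N : ℤ) * a) := by
  rw [← conj_zpow, h, zpow_mul, zpow_natCast]

theorem pow_conj_rel (h : g * x * g⁻¹ = x ^ N) (i : ℕ) (a : ℤ) :
    g ^ i * x ^ a * (g ^ i)⁻¹ = x ^ ((N : ℤ) ^ i * a) := by
  induction i generalizing a with
  | zero => simp
  | succ i ih =>
    have e : g ^ (i + 1) * x ^ a * (g ^ (i + 1))⁻¹ = g ^ i * (g * x ^ a * g⁻¹) * (g ^ i)⁻¹ := by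
      rw [pow_succ, mul_inv_rev]; group
    rw [e, conj_zpow_rel h, ih]
    congr 1
    ring

theorem pow_mul_zpow (h : g * x * g⁻¹ = x ^ N) (i : ℕ) (a : ℤ) :
    g ^ i * x ^ a = x ^ ((N : ℤ) ^ i * a) * g ^ i := by
  rw [← pow_conj_rel h i a, inv_mul_cancel_right]

/-- A product in normal form is trivial only if it is visibly so. -/
theorem normal_one (h : g * x * g⁻¹ = x ^ N) (hN : 2 ≤ N) (hx : ¬ IsOfFinOrder x) {i j : ℕ} {a : ℤ}
    (h1 : (g ^ i)⁻¹ * x ^ a * g ^ j = 1) : i = j ∧ a = 0 := by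
  have hx0 : ∀ k : ℤ, x ^ k = 1 → k = 0 := by
    intro k hk
    by_contra h0
    exact hx (isOfFinOrder_iff_zpow_eq_one.2 ⟨k, h0, hk⟩)
  have h2 : x ^ a = g ^ i * (g ^ j)⁻¹ := by
    rw [eq_mul_inv_iff_mul_eq]
    have := congrArg (fun y => g ^ i * y) h1
    simp only [mul_one] at this
    rw [← this]
    group
  have hc : g * x ^ a * g⁻¹ = x ^ a := by
    rw [h2]
    have c1 : Commute g (g ^ i * (g ^ j)⁻¹) :=
      ((Commute.refl g).pow_right i).mul_right (((Commute.refl g).pow_right j).inv_right)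
    rw [c1.eq, mul_inv_cancel_right]
  rw [conj_zpow_rel h] at hc
  have h3 : x ^ ((N : ℤ) * a - a) = 1 := by rw [zpow_sub, hc, mul_inv_cancel]
  have h4 := hx0 _ h3
  have ha : a = 0 := by
    have h5 : ((N : ℤ) - 1) * a = 0 := by linarith
    rcases mul_eq_zero.1 h5 with h6 | h6
    · omega
    · exact h6
  refine ⟨?_, ha⟩
  rw [ha, zpow_zero] at h2
  have h5 : g ^ i = g ^ j := (mul_inv_eq_one.1 h2.symm)
  have key : ∀ m n : ℕ, m ≤ n → g ^ m = g ^ n → m = n := by
    intro m n hmn he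
    obtain ⟨k, rfl⟩ := Nat.exists_eq_add_of_le hmn
    have h6 : g ^ k = 1 := by
      rw [pow_add] at he
      exact (left_eq_mul.1 he)
    have h7 := pow_conj_rel h k 1
    rw [h6, one_mul, inv_one, mul_one, mul_one, zpow_one] at h7
    have h8 : x ^ ((N : ℤ) ^ k - 1) = 1 := by rw [zpow_sub, ← h7, zpow_one, mul_inv_cancel]
    have h9 := hx0 _ h8
    by_contra hne
    have hk : k ≠ 0 := by omega
    have h10 : 1 < N ^ k := Nat.one_lt_pow hk (by omega)
    have h11 : ((N ^ k : ℕ) : ℤ) = 1 := by push_cast; linarith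
    omega
  rcases le_total i j with hij | hij
  · exact key i j hij h5
  · exact (key j i hij h5.symm).symm

end Rel

/-- Normal forms in BS(1, N). -/
theorem bs_normal (N : ℕ) (y : BS N) : ∃ (i j : ℕ) (a : ℤ),
    y = ((bt N) ^ i)⁻¹ * (bx N) ^ a * (bt N) ^ j := by
  have hrel := bs_rel N
  have hy : y ∈ closure (Set.range (PresentedGroup.of (rels := bsRel N))) := by
    rw [PresentedGroup.closure_range_of]; trivial
  have hx : ∀ (s : ℤ) (z : BS N), (∃ (i j : ℕ) (a : ℤ), z = ((bt N) ^ i)⁻¹ * (bx N) ^ a * (bt N) ^ j) →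
      ∃ (i j : ℕ) (a : ℤ), (bx N) ^ s * z = ((bt N) ^ i)⁻¹ * (bx N) ^ a * (bt N) ^ j := by
    rintro s z ⟨i, j, a, rfl⟩
    refine ⟨i, j, (N : ℤ) ^ i * s + a, ?_⟩
    rw [zpow_add, ← pow_conj_rel hrel i s]
    group
  have ht : ∀ (z : BS N), (∃ (i j : ℕ) (a : ℤ), z = ((bt N) ^ i)⁻¹ * (bx N) ^ a * (bt N) ^ j) →
      ∃ (i j : ℕ) (a : ℤ), (bt N) * z = ((bt N) ^ i)⁻¹ * (bx N) ^ a * (bt N) ^ j := by
    rintro z ⟨i, j, a, rfl⟩
    cases i with
    | zero =>
      refine ⟨0, j + 1, (N : ℤ) * a, ?_⟩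
      rw [← conj_zpow_rel hrel a, pow_succ']
      group
    | succ i =>
      refine ⟨i, j, a, ?_⟩
      rw [pow_succ, mul_inv_rev]
      group
  have ht' : ∀ (z : BS N), (∃ (i j : ℕ) (a : ℤ), z = ((bt N) ^ i)⁻¹ * (bx N) ^ a * (bt N) ^ j) →
      ∃ (i j : ℕ) (a : ℤ), (bt N)⁻¹ * z = ((bt N) ^ i)⁻¹ * (bx N) ^ a * (bt N) ^ j := by
    rintro z ⟨i, j, a, rfl⟩
    refine ⟨i + 1, j, a, ?_⟩
    rw [pow_succ, mul_inv_rev]
    group
  induction hy using closure_induction_left with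
  | one => exact ⟨0, 0, 0, by simp⟩
  | mul_left z hz w hw ih =>
    obtain ⟨b, rfl⟩ := hz
    cases b with
    | true => exact ht w ih
    | false =>
      have h0 := hx 1 w ih
      rw [zpow_one] at h0
      exact h0
  | inv_mul_cancel z hz w hw ih =>
    obtain ⟨b, rfl⟩ := hz
    cases b with
    | true => exact ht' w ih
    | false =>
      have h0 := hx (-1) w ih
      rw [zpow_neg_one] at h0
      exact h0

/-- An element of infinite order conjugate to its `N`-th power gives a copy of BS(1, N). -/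
theorem bs_embed {G : Type*} [Group G] {x g : G} {N : ℕ} (h : g * x * g⁻¹ = x ^ N) (hN : 2 ≤ N)
    (hx : ¬ IsOfFinOrder x) : ∃ f : BS N →* G, Function.Injective f ∧ f (bt N) = g ∧
      f (bx N) = x := by
  let f0 : Bool → G := fun b => if b then g else x
  have hf : ∀ r ∈ bsRel N, FreeGroup.lift f0 r = 1 := by
    rintro r rfl
    simp only [map_mul, map_inv, map_pow, FreeGroup.lift_apply_of, f0]
    simp [h]
  let f : BS N →* G := PresentedGroup.toGroup hf
  have h1 : f (bt N) = g := by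
    simp [f, bt, PresentedGroup.toGroup.of, f0]
  have h2 : f (bx N) = x := by
    simp [f, bx, PresentedGroup.toGroup.of, f0]
  refine ⟨f, ?_, h1, h2⟩
  rw [injective_iff_map_eq_one]
  intro y hy
  obtain ⟨i, j, a, rfl⟩ := bs_normal N y
  rw [map_mul, map_mul, map_inv, map_pow, map_zpow, map_pow, h1, h2] at hy
  obtain ⟨rfl, rfl⟩ := normal_one h hN hx hy
  simp

/-- In a group with finitely many conjugacy classes an element of infinite order has, for each
`n ≥ 2`, a power of infinite order conjugate to its `n ^ d`-th power, for some `d ≥ 1`. -/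
theorem exists_bs {G : Type*} [Group G] [hc : Finite (ConjClasses G)] {q : G}
    (hq : ¬ IsOfFinOrder q) (n : ℕ) (hn : 2 ≤ n) :
    ∃ d : ℕ, 1 ≤ d ∧ ∃ i : ℕ, ∃ g : G, ¬ IsOfFinOrder (q ^ (n ^ i)) ∧
      g * q ^ (n ^ i) * g⁻¹ = (q ^ (n ^ i)) ^ (n ^ d) := by
  obtain ⟨i, j, hij, he⟩ := Finite.exists_ne_map_eq_of_infinite
    (fun k : ℕ => ConjClasses.mk (q ^ (n ^ k)))
  have he' : IsConj (q ^ (n ^ i)) (q ^ (n ^ j)) := ConjClasses.mk_eq_mk_iff_isConj.1 he
  have key : ∀ i j : ℕ, i < j → IsConj (q ^ (n ^ i)) (q ^ (n ^ j)) →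
      ∃ d : ℕ, 1 ≤ d ∧ ∃ i : ℕ, ∃ g : G, ¬ IsOfFinOrder (q ^ (n ^ i)) ∧
      g * q ^ (n ^ i) * g⁻¹ = (q ^ (n ^ i)) ^ (n ^ d) := by
    intro i j h1 h2
    obtain ⟨g, hg⟩ := isConj_iff.1 h2
    refine ⟨j - i, by omega, i, g, ?_, ?_⟩
    · intro h
      exact hq (h.of_pow (by positivity))
    · rw [hg, ← pow_mul, ← pow_add]
      congr 2
      omega
  rcases lt_or_gt_of_ne hij with h | h
  · exact key i j h he'
  · exact key j i h he'.symm

end Pool.Agent.X277.Mon
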