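import Mathlib
import Pool.Agent.X277.Mon.BS

set_option autoImplicit false

namespace Pool.Agent.X277.Mon

open Subgroup

/-- The ball of radius `r` for the word length of a set `S`: products of at most `r` elements of
`S` and their inverses. -/
def ball {G : Type*} [Group G] (S : Set G) (r : ℕ) : Set G :=
  {g | ∃ w : List G, w.length ≤ r ∧ (∀ a ∈ w, a ∈ S ∨ a⁻¹ ∈ S) ∧ w.prod = g}

section

variable {G : Type*} [Group G]

theorem ball_mono (S : Set G) {r s : ℕ} (h : r ≤ s) : ball S r ⊆ ball S s := by
  rintro g ⟨w, hw, h1, h2⟩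
  exact ⟨w, hw.trans h, h1, h2⟩

theorem one_mem_ball (S : Set G) (r : ℕ) : (1 : G) ∈ ball S r :=
  ⟨[], Nat.zero_le _, by simp, rfl⟩

theorem ball_mul {S : Set G} {r s : ℕ} {a b : G} (ha : a ∈ ball S r) (hb : b ∈ ball S s) :
    a * b ∈ ball S (r + s) := by
  obtain ⟨v, hv, h1, rfl⟩ := ha
  obtain ⟨w, hw, h2, rfl⟩ := hb
  refine ⟨v ++ w, by rw [List.length_append]; omega, ?_, List.prod_append⟩
  intro c hc
  rcases List.mem_append.1 hc with h | h
  · exact h1 c h
  · exact h2 c h

theorem ball_finite {S : Set G} (hS : S.Finite) (r : ℕ) : (ball S r).Finite := by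
  have hT : (S ∪ S⁻¹ : Set G).Finite := hS.union hS.inv
  have h1 : {w : List G | w.length ≤ r ∧ ∀ a ∈ w, a ∈ (S ∪ S⁻¹ : Set G)}.Finite := by
    have h0 : {w : List G | w.length ≤ r ∧ ∀ a ∈ w, a ∈ (S ∪ S⁻¹ : Set G)} ⊆
        ⋃ k ∈ Finset.range (r + 1), {w : List G | w.length = k ∧ ∀ a ∈ w, a ∈ (S ∪ S⁻¹ : Set G)} := by
      rintro w ⟨h2, h3⟩
      simp only [Set.mem_iUnion, Finset.mem_range]
      exact ⟨w.length, by omega, rfl, h3⟩
    refine Set.Finite.subset (Set.Finite.biUnion (Finset.finite_toSet _) ?_) h0
    intro k hk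
    clear hk
    induction k with
    | zero =>
      refine (Set.finite_singleton ([] : List G)).subset ?_
      rintro w ⟨h2, -⟩
      exact List.length_eq_zero_iff.1 h2
    | succ k ih =>
      have h3 := (hT.prod ih).image (fun p : G × List G => p.1 :: p.2)
      refine h3.subset ?_
      rintro w ⟨h4, h5⟩
      cases w with
      | nil => simp at h4
      | cons a w =>
        refine ⟨(a, w), ⟨h5 a (by simp), ?_, fun b hb => h5 b (by simp [hb])⟩, rfl⟩
        simpa using h4
  refine (h1.image List.prod).subset ?_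
  rintro g ⟨w, hw, h2, rfl⟩
  exact ⟨w, ⟨hw, fun a ha => h2 a ha⟩, rfl⟩

theorem exists_ball {S : Set G} (hS : closure S = ⊤) (g : G) : ∃ r, g ∈ ball S r := by
  have hg : g ∈ closure S := hS ▸ mem_top g
  induction hg using closure_induction with
  | mem x hx => exact ⟨1, [x], by simp, by simp [hx], by simp⟩
  | one => exact ⟨0, one_mem_ball S 0⟩
  | mul x y _ _ hx hy =>
    obtain ⟨r, hr⟩ := hx
    obtain ⟨s, hs⟩ := hy
    exact ⟨r + s, ball_mul hr hs⟩
  | inv x _ hx =>
    obtain ⟨r, w, hw, h1, rfl⟩ := hx
    refine ⟨r, (w.map (·⁻¹)).reverse, by simpa using hw, ?_, ?_⟩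
    · intro a ha
      rw [List.mem_reverse, List.mem_map] at ha
      obtain ⟨b, hb, rfl⟩ := ha
      rw [inv_inv]
      exact (h1 b hb).symm
    · rw [List.prod_inv_reverse]

/-- Value of a binary word: digits of the exponent of `x` to base `N`. -/
def dig (N : ℕ) : List Bool → ℕ
  | [] => 0
  | b :: l => (if b then 1 else 0) + N * dig N l

theorem dig_inj {N : ℕ} (hN : 2 ≤ N) : ∀ (l m : List Bool), l.length = m.length →
    dig N l = dig N m → l = m := by
  intro l
  induction l with
  | nil =>
    intro m h _
    exact (List.length_eq_zero_iff.1 h.symm).symm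
  | cons b l ih =>
    intro m h hd
    cases m with
    | nil => simp at h
    | cons c m =>
      simp only [dig] at hd
      have h1 : (if b then 1 else 0 : ℕ) = if c then 1 else 0 := by
        have h2 := congrArg (· % N) hd
        simp only [Nat.add_mul_mod_self_left] at h2
        have hb : (if b then 1 else 0 : ℕ) % N = if b then 1 else 0 :=
          Nat.mod_eq_of_lt (by split <;> omega)
        have hc : (if c then 1 else 0 : ℕ) % N = if c then 1 else 0 :=
          Nat.mod_eq_of_lt (by split <;> omega)
        rwa [hb, hc] at h2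
      have hbc : b = c := by
        cases b <;> cases c <;> simp_all
      have h3 : dig N l = dig N m := by
        rw [h1] at hd
        have h4 : N * dig N l = N * dig N m := by omega
        exact Nat.eq_of_mul_eq_mul_left (by omega) h4
      rw [hbc, ih m (by simpa using h) h3]

/-- The products of the elements `g` and `x * g` given by binary words. -/
def bw (x g : G) (l : List Bool) : G := (l.map fun b => if b then x * g else g).prod

theorem bw_eq {x g : G} {N : ℕ} (h : g * x * g⁻¹ = x ^ N) (l : List Bool) :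
    bw x g l = x ^ (dig N l) * g ^ l.length := by
  induction l with
  | nil => simp [bw, dig]
  | cons b l ih =>
    have h1 : bw x g (b :: l) = (if b then x * g else g) * bw x g l := by simp [bw]
    have h2 : g * x ^ (dig N l) = x ^ (N * dig N l) * g := by
      have := pow_mul_zpow h 1 (dig N l : ℤ)
      simp only [pow_one] at this
      exact_mod_cast this
    rw [h1, ih, dig, List.length_cons, pow_add, pow_succ' g]
    cases b
    · simp only [Bool.false_eq_true, if_false, pow_zero, one_mul]
      rw [← mul_assoc, h2]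
      group
    · simp only [if_true, pow_one]
      rw [mul_assoc x g, ← mul_assoc g, h2]
      group

/-- Exponential growth from a conjugacy `g x g⁻¹ = x ^ N`, `N ≥ 2`, `x` of infinite order. -/
theorem exp_growth {x g : G} {N : ℕ} (h : g * x * g⁻¹ = x ^ N) (hN : 2 ≤ N)
    (hx : ¬ IsOfFinOrder x) {S : Set G} (hSf : S.Finite) (hS : closure S = ⊤) :
    ∃ c : ℝ, 0 < c ∧ ∀ r : ℕ, Real.exp (c * r) ≤ ((ball S r).ncard : ℝ) := by
  obtain ⟨r1, hr1⟩ := exists_ball hS x
  obtain ⟨r2, hr2⟩ := exists_ball hS g
  set L : ℕ := r1 + r2 + 1 with hL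
  have hgL : g ∈ ball S L := ball_mono S (by omega) hr2
  have hxgL : x * g ∈ ball S L := ball_mono S (by omega) (ball_mul hr1 hr2)
  have hbw : ∀ l : List Bool, bw x g l ∈ ball S (L * l.length) := by
    intro l
    induction l with
    | nil => simpa [bw] using one_mem_ball S 0
    | cons b l ih =>
      have h1 : bw x g (b :: l) = (if b then x * g else g) * bw x g l := by simp [bw]
      rw [h1, List.length_cons, Nat.mul_succ, add_comm]
      apply ball_mul _ ih
      cases b
      · simpa using hgL
      · simpa using hxgL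
  have hcard : ∀ k : ℕ, 2 ^ k ≤ (ball S (L * k)).ncard := by
    intro k
    have hinj : Set.InjOn (fun v : List.Vector Bool k => bw x g v.1) Set.univ := by
      intro v _ w _ hvw
      apply Subtype.ext
      apply dig_inj hN v.1 w.1 (v.2.trans w.2.symm)
      simp only [bw_eq h, v.2, w.2] at hvw
      have h1 : x ^ (dig N v.1) = x ^ (dig N w.1) := mul_right_cancel hvw
      by_contra hne
      apply hx
      rcases lt_or_gt_of_ne hne with h2 | h2
      · rw [isOfFinOrder_iff_pow_eq_one]
        refine ⟨dig N w.1 - dig N v.1, by omega, ?_⟩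
        have h3 : x ^ dig N w.1 = x ^ dig N v.1 * x ^ (dig N w.1 - dig N v.1) := by
          rw [← pow_add]; congr 1; omega
        rw [h3] at h1
        exact left_eq_mul.1 h1
      · rw [isOfFinOrder_iff_pow_eq_one]
        refine ⟨dig N v.1 - dig N w.1, by omega, ?_⟩
        have h3 : x ^ dig N v.1 = x ^ dig N w.1 * x ^ (dig N v.1 - dig N w.1) := by
          rw [← pow_add]; congr 1; omega
        rw [h3] at h1
        exact left_eq_mul.1 h1.symm
    have h1 : (Set.univ : Set (List.Vector Bool k)).ncard ≤ (ball S (L * k)).ncard := by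
      apply Set.ncard_le_ncard_of_injOn _ _ hinj (ball_finite hSf _)
      intro v _
      have := hbw v.1
      rwa [v.2] at this
    rw [Set.ncard_univ, Nat.card_eq_fintype_card, card_vector] at h1
    simpa using h1
  have h2 : ∀ r : ℕ, 1 ≤ r → 2 ≤ (ball S r).ncard := by
    intro r hr
    obtain ⟨s, hs, hs1⟩ : ∃ s ∈ S, s ≠ 1 := by
      by_contra hcon
      push Not at hcon
      have h3 : closure S = ⊥ := by
        rw [closure_eq_bot_iff]
        intro s hs
        exact hcon s hs
      rw [hS] at h3
      have : x ∈ (⊥ : Subgroup G) := h3 ▸ mem_top x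
      rw [mem_bot] at this
      exact hx (this ▸ IsOfFinOrder.one)
    have h3 : ({1, s} : Set G) ⊆ ball S r := by
      rintro y (rfl | rfl)
      · exact one_mem_ball S r
      · exact ball_mono S hr ⟨[y], by simp, by simp [hs], by simp⟩
    have h4 := Set.ncard_le_ncard h3 (ball_finite hSf r)
    rwa [Set.ncard_pair (Ne.symm hs1)] at h4
  have hLpos : (0 : ℝ) < L := by
    have : 0 < L := by omega
    exact_mod_cast this
  refine ⟨Real.log 2 / (2 * L), by positivity, ?_⟩
  intro r
  rcases Nat.eq_zero_or_pos r with rfl | hr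
  · have h3 : ({1} : Set G) ⊆ ball S 0 := by
      rintro y rfl
      exact one_mem_ball S 0
    have h4 := Set.ncard_le_ncard h3 (ball_finite hSf 0)
    rw [Set.ncard_singleton] at h4
    simp only [Nat.cast_zero, mul_zero, Real.exp_zero]
    exact_mod_cast h4
  · have h3 : ∃ k : ℕ, (2 : ℕ) ^ k ≤ (ball S r).ncard ∧ (r : ℝ) ≤ 2 * L * k := by
      by_cases hrL : r < L
      · refine ⟨1, by simpa using h2 r hr, ?_⟩
        have : (r : ℝ) < L := by exact_mod_cast hrL
        push_cast
        linarith
      · refine ⟨r / L, (hcard (r / L)).trans (Set.ncard_le_ncard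
          (ball_mono S (Nat.mul_div_le r L)) (ball_finite hSf r)), ?_⟩
        have h5 : r < L * (r / L) + L := by
          have := Nat.lt_mul_div_succ r (show 0 < L by omega)
          rw [Nat.mul_add, Nat.mul_one] at this
          exact this
        have h6 : L ≤ L * (r / L) := by
          have : 1 ≤ r / L := (Nat.one_le_div_iff (by omega)).2 (by omega)
          nlinarith
        have h7 : r ≤ 2 * L * (r / L) := by nlinarith
        exact_mod_cast h7
    obtain ⟨k, hk, hk2⟩ := h3
    have h4 : Real.log 2 / (2 * L) * r ≤ Real.log 2 * k := by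
      rw [div_mul_eq_mul_div, div_le_iff₀ (by positivity)]
      have := mul_le_mul_of_nonneg_left hk2 (Real.log_nonneg (by norm_num : (1 : ℝ) ≤ 2))
      linarith
    calc Real.exp (Real.log 2 / (2 * L) * r) ≤ Real.exp (Real.log 2 * k) := Real.exp_le_exp.2 h4
      _ = (2 : ℝ) ^ k := by
        rw [mul_comm, Real.exp_nat_mul, Real.exp_log (by norm_num)]
      _ ≤ ((ball S r).ncard : ℝ) := by exact_mod_cast hk

end

end Pool.Agent.X277.Mon
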