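import Mathlib
import Pool.Agent.H715R3.MedvA
import Pool.Agent.X277.Mon.T3

set_option autoImplicit false

namespace Pool.Agent.X277.Mon

open Pool.Agent.H715R3.Medv Subgroup

/-- Words over `r` letters and their inverses. -/
abbrev Word (r : ℕ) := List (Fin r × Bool)

/-- Derivations. -/
abbrev Der (r : ℕ) := List (List (Fin r × Bool) × (ℕ × Bool))

theorem re_of_prim {α β : Type*} [Primcodable α] [Primcodable β] {P : α × β → Prop}
    (hP : PrimrecPred P) : REPred (fun a => ∃ b, P (a, b)) := by
  classical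
  obtain ⟨hd, hP'⟩ := hP
  let R : α → ℕ → Bool := fun a n =>
    ((Encodable.decode n : Option β).map (fun b => decide (P (a, b)))).getD false
  have hR : Primrec₂ R := by
    refine Primrec.option_getD.comp (Primrec.option_map (Primrec.decode.comp Primrec.snd) ?_)
      (Primrec.const false)
    have h1 : Primrec (fun p : (α × ℕ) × β => decide (P (p.1.1, p.2))) := by
      have := hP'.comp (Primrec.pair (Primrec.fst.comp (Primrec.fst (α := α × ℕ) (β := β)))
        Primrec.snd)
      exact this.of_eq fun p => by congr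
    exact h1.to₂
  refine REPred.of_eq (rePred_exists hR.to_comp) ?_
  intro a
  constructor
  · rintro ⟨n, hn⟩
    simp only [R] at hn
    cases hD : (Encodable.decode n : Option β) with
    | none => rw [hD] at hn; simp at hn
    | some b =>
      rw [hD] at hn
      simp only [Option.map_some, Option.getD_some, decide_eq_true_eq] at hn
      exact ⟨b, hn⟩
  · rintro ⟨b, hb⟩
    refine ⟨Encodable.encode b, ?_⟩
    simp only [R, Encodable.encodek, Option.map_some, Option.getD_some, decide_eq_true_eq]
    exact hb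

variable {r : ℕ}

/-- The derivation `E` shows that the word `w` is trivial. -/
def Triv (rel : ℕ → Word r) (w : Word r) (E : Der r) : Prop :=
  FreeGroup.reduce w = FreeGroup.reduce (dval rel E)

theorem dval_primrec {rel : ℕ → Word r} (hrel : Primrec rel) : Primrec (dval rel) := by
  refine Primrec.list_flatMap Primrec.id ?_
  have d : Primrec (fun p : List (List (Fin r × Bool) × (ℕ × Bool)) ×
      (List (Fin r × Bool) × (ℕ × Bool)) => p.2) := Primrec.snd
  have h1 := Primrec.fst.comp d
  have h2 := hrel.comp (Primrec.fst.comp (Primrec.snd.comp d))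
  have h3 := Primrec.snd.comp (Primrec.snd.comp d)
  exact Primrec.list_append.comp h1 (Primrec.list_append.comp
    (Primrec.cond h3 h2 (winv_primrec.comp h2)) (winv_primrec.comp h1))

theorem triv_primrec {α : Type*} [Primcodable α] {rel : ℕ → Word r} (hrel : Primrec rel)
    {f : α → Word r} {e : α → Der r} (hf : Primrec f) (he : Primrec e) :
    PrimrecPred (fun a => Triv rel (f a) (e a)) :=
  Primrec.eq.comp (reduce_primrec.comp hf) (reduce_primrec.comp ((dval_primrec hrel).comp he))

theorem triv_iff {G : Type*} [Group G] (φ : FreeGroup (Fin r) →* G) {rel : ℕ → Word r}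
    (hk : φ.ker = normalClosure (Set.range fun n => FreeGroup.mk (rel n))) (w : Word r) :
    φ (FreeGroup.mk w) = 1 ↔ ∃ E, Triv rel w E := by
  rw [← MonoidHom.mem_ker, hk, mem_normalClosure_iff]
  constructor
  · rintro ⟨D, hD⟩
    exact ⟨D, FreeGroup.reduce.sound hD⟩
  · rintro ⟨D, hD⟩
    exact ⟨D, FreeGroup.reduce.exact hD⟩

/-- Finite presentability does not depend on the generators. -/
theorem ker_fng {G : Type*} [Group G] [hG : Group.IsFinitelyPresented G]
    (φ : FreeGroup (Fin r) →* G) (hφ : Function.Surjective φ) :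
    φ.ker.IsFinitelyNormallyGenerated := by
  obtain ⟨n, ψ, hψ, S, hSf, hS⟩ := hG.out
  choose a ha using fun i : Fin n => hφ (ψ (FreeGroup.of i))
  choose b hb using fun j : Fin r => hψ (φ (FreeGroup.of j))
  let α : FreeGroup (Fin n) →* FreeGroup (Fin r) := FreeGroup.lift a
  let β : FreeGroup (Fin r) →* FreeGroup (Fin n) := FreeGroup.lift b
  have hα : φ.comp α = ψ := by
    ext i
    simp [α, ha]
  have hβ : ψ.comp β = φ := by
    ext j
    simp [β, hb]
  set K := normalClosure (α '' S ∪ Set.range fun j : Fin r =>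
    (FreeGroup.of j)⁻¹ * α (β (FreeGroup.of j))) with hK
  refine ⟨α '' S ∪ Set.range fun j : Fin r => (FreeGroup.of j)⁻¹ * α (β (FreeGroup.of j)),
    (hSf.image α).union (Set.finite_range _), ?_⟩
  apply le_antisymm
  · apply normalClosure_le_normal
    rintro _ (⟨s, hs, rfl⟩ | ⟨j, rfl⟩)
    · change φ (α s) = 1
      rw [← MonoidHom.comp_apply, hα]
      have : s ∈ ψ.ker := hS ▸ subset_normalClosure hs
      exact this
    · change φ _ = 1
      rw [map_mul, map_inv, ← MonoidHom.comp_apply φ α, hα, ← MonoidHom.comp_apply ψ β, hβ,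
        inv_mul_cancel]
  · intro w hw
    have h1 : QuotientGroup.mk' K = ((QuotientGroup.mk' K).comp α).comp β := by
      ext j
      have h2 : (FreeGroup.of j)⁻¹ * α (β (FreeGroup.of j)) ∈ K :=
        subset_normalClosure (Or.inr ⟨j, rfl⟩)
      exact QuotientGroup.eq.2 h2
    have h3 : β w ∈ normalClosure S := by
      rw [hS, MonoidHom.mem_ker, ← MonoidHom.comp_apply ψ β, hβ]
      exact hw
    have h4 : normalClosure S ≤ K.comap α := by
      apply normalClosure_le_normal
      intro s hs
      exact subset_normalClosure (Or.inl ⟨s, hs, rfl⟩)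
    have h5 : α (β w) ∈ K := h4 h3
    have h6 : QuotientGroup.mk' K w = 1 := by
      rw [h1, MonoidHom.comp_apply, MonoidHom.comp_apply]
      exact (QuotientGroup.eq_one_iff _).2 h5
    exact (QuotientGroup.eq_one_iff w).1 h6

theorem fp_rel {G : Type*} [Group G] [hG : Group.IsFinitelyPresented G]
    (φ : FreeGroup (Fin r) →* G) (hφ : Function.Surjective φ) :
    ∃ rel : ℕ → Word r, Primrec rel ∧
      ∀ w, φ (FreeGroup.mk w) = 1 ↔ ∃ E, Triv rel w E := by
  obtain ⟨S, hSf, hS⟩ := ker_fng φ hφ
  let L : List (Word r) := hSf.toFinset.toList.map FreeGroup.toWord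
  have hL : ∀ w, w ∈ L → FreeGroup.mk w ∈ S := by
    intro w hw
    obtain ⟨s, hs, rfl⟩ := List.mem_map.1 hw
    rw [FreeGroup.mk_toWord]
    simpa using hs
  refine ⟨fun n => (L[n]?).getD [], ?_, ?_⟩
  · exact Primrec.option_getD.comp (Primrec.list_getElem?.comp (Primrec.const L) Primrec.id)
      (Primrec.const [])
  · intro w
    apply triv_iff
    rw [← hS]
    apply le_antisymm
    · apply normalClosure_le_normal
      intro s hs
      have h1 : s.toWord ∈ L := List.mem_map.2 ⟨s, by simpa using hs, rfl⟩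
      obtain ⟨n, hn, h2⟩ := List.getElem_of_mem h1
      apply subset_normalClosure
      refine ⟨n, ?_⟩
      simp only [List.getElem?_eq_getElem hn, Option.getD_some, h2, FreeGroup.mk_toWord]
    · apply normalClosure_le_normal
      rintro _ ⟨n, rfl⟩
      change FreeGroup.mk ((L[n]?).getD []) ∈ normalClosure S
      cases h : L[n]? with
      | none =>
        rw [Option.getD_none, ← FreeGroup.one_eq_mk]
        exact one_mem _
      | some w =>
        rw [Option.getD_some]
        exact subset_normalClosure (hL w (List.mem_of_getElem? h))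

theorem comp_computablePred {α β : Type*} [Primcodable α] [Primcodable β] {p : β → Prop}
    (hp : ComputablePred p) {f : α → β} (hf : Computable f) : ComputablePred (fun a => p (f a)) := by
  classical
  exact (hp.decide.comp hf).computablePred

/-- Solvable conjugacy problem: for each finite generating tuple, conjugacy of two words is
decidable. -/
def SolvableCP (G : Type*) [Group G] : Prop :=
  ∀ (r : ℕ) (φ : FreeGroup (Fin r) →* G), Function.Surjective φ →
    ComputablePred (fun p : List (Fin r × Bool) × List (Fin r × Bool) =>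
      IsConj (φ (FreeGroup.mk p.1)) (φ (FreeGroup.mk p.2)))

/-- Solvable word problem: for each finite generating tuple, triviality of words is decidable. -/
def SolvableWP (G : Type*) [Group G] : Prop :=
  ∀ (r : ℕ) (φ : FreeGroup (Fin r) →* G), Function.Surjective φ →
    ComputablePred (fun w : List (Fin r × Bool) => φ (FreeGroup.mk w) = 1)

theorem SolvableCP.wp {G : Type*} [Group G] (h : SolvableCP G) : SolvableWP G := by
  intro r φ hφ
  have h1 := comp_computablePred (h r φ hφ)
    (f := fun w : List (Fin r × Bool) => (w, ([] : List (Fin r × Bool))))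
    ((Primrec.pair Primrec.id (Primrec.const [])).to_comp)
  refine h1.of_eq ?_
  intro w
  simp only [← FreeGroup.one_eq_mk, map_one, isConj_one_left]

/-- Groups with finitely many conjugacy classes. -/
theorem cp_of_finite {G : Type*} [Group G] [hG : Group.IsFinitelyPresented G]
    [hc : Finite (ConjClasses G)] : SolvableCP G := by
  classical
  intro r φ hφ
  obtain ⟨rel, hrel, hT⟩ := fp_rel φ hφ
  have hconj : ∀ u v : Word r, IsConj (φ (FreeGroup.mk u)) (φ (FreeGroup.mk v)) ↔
      ∃ (x : Word r) (E : Der r), Triv rel (x ++ (u ++ (winv x ++ winv v))) E := by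
    intro u v
    have key : ∀ x : Word r, (∃ E : Der r, Triv rel (x ++ (u ++ (winv x ++ winv v))) E) ↔
        φ (FreeGroup.mk x) * φ (FreeGroup.mk u) * (φ (FreeGroup.mk x))⁻¹ = φ (FreeGroup.mk v) := by
      intro x
      rw [← hT, ← FreeGroup.mul_mk, ← FreeGroup.mul_mk, ← FreeGroup.mul_mk, mk_winv, mk_winv,
        map_mul, map_mul, map_mul, map_inv, map_inv, ← mul_assoc, ← mul_assoc, mul_inv_eq_one]
    rw [isConj_iff]
    constructor
    · rintro ⟨c, hc⟩
      obtain ⟨x, rfl⟩ := hφ c
      obtain ⟨E, hE⟩ := (key x.toWord).2 (by rw [FreeGroup.mk_toWord]; exact hc)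
      exact ⟨_, E, hE⟩
    · rintro ⟨x, hE⟩
      exact ⟨_, (key x).1 hE⟩
  obtain ⟨k, ⟨e⟩⟩ := Finite.exists_equiv_fin (ConjClasses G)
  have hrep : ∀ i : Fin k, ∃ w : Word r, ConjClasses.mk (φ (FreeGroup.mk w)) = e.symm i := by
    intro i
    obtain ⟨g, hg⟩ := ConjClasses.exists_rep (e.symm i)
    obtain ⟨x, rfl⟩ := hφ g
    exact ⟨x.toWord, by rw [FreeGroup.mk_toWord]; exact hg⟩
  choose rep hrep using hrep
  rw [ComputablePred.computable_iff_re_compl_re']
  refine ⟨?_, ?_⟩
  · have h1 : PrimrecPred (fun q : (Word r × Word r) × (Word r × Der r) =>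
        Triv rel (q.2.1 ++ (q.1.1 ++ (winv q.2.1 ++ winv q.1.2))) q.2.2) := by
      apply triv_primrec hrel
      · exact Primrec.list_append.comp (Primrec.fst.comp Primrec.snd)
          (Primrec.list_append.comp (Primrec.fst.comp Primrec.fst)
            (Primrec.list_append.comp (winv_primrec.comp (Primrec.fst.comp Primrec.snd))
              (winv_primrec.comp (Primrec.snd.comp Primrec.fst))))
      · exact Primrec.snd.comp Primrec.snd
    refine (re_of_prim h1).of_eq ?_
    intro p
    rw [hconj]
    constructor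
    · rintro ⟨⟨x, E⟩, h⟩
      exact ⟨x, E, h⟩
    · rintro ⟨x, E, h⟩
      exact ⟨(x, E), h⟩
  · have h1 : PrimrecPred (fun q : (Word r × Word r) ×
        ((Fin k × Fin k) × ((Word r × Der r) × (Word r × Der r))) =>
        (¬ q.2.1.1 = q.2.1.2) ∧
        (Triv rel (q.2.2.1.1 ++ (q.1.1 ++ (winv q.2.2.1.1 ++ winv (rep q.2.1.1)))) q.2.2.1.2 ∧
        Triv rel (q.2.2.2.1 ++ (q.1.2 ++ (winv q.2.2.2.1 ++ winv (rep q.2.1.2)))) q.2.2.2.2)) := by
      have hr : Primrec rep := Primrec.dom_finite rep
      have pA := Primrec.fst (α := Word r × Word r)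
        (β := (Fin k × Fin k) × ((Word r × Der r) × (Word r × Der r)))
      have pB := Primrec.snd (α := Word r × Word r)
        (β := (Fin k × Fin k) × ((Word r × Der r) × (Word r × Der r)))
      have i1 := Primrec.fst.comp (Primrec.fst.comp pB)
      have i2 := Primrec.snd.comp (Primrec.fst.comp pB)
      have x1 := Primrec.fst.comp (Primrec.fst.comp (Primrec.snd.comp pB))
      have e1 := Primrec.snd.comp (Primrec.fst.comp (Primrec.snd.comp pB))
      have x2 := Primrec.fst.comp (Primrec.snd.comp (Primrec.snd.comp pB))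
      have e2 := Primrec.snd.comp (Primrec.snd.comp (Primrec.snd.comp pB))
      refine PrimrecPred.and (PrimrecPred.not (Primrec.eq.comp i1 i2)) (PrimrecPred.and ?_ ?_)
      · apply triv_primrec hrel _ e1
        exact Primrec.list_append.comp x1 (Primrec.list_append.comp (Primrec.fst.comp pA)
          (Primrec.list_append.comp (winv_primrec.comp x1) (winv_primrec.comp (hr.comp i1))))
      · apply triv_primrec hrel _ e2
        exact Primrec.list_append.comp x2 (Primrec.list_append.comp (Primrec.snd.comp pA)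
          (Primrec.list_append.comp (winv_primrec.comp x2) (winv_primrec.comp (hr.comp i2))))
    refine (re_of_prim h1).of_eq ?_
    rintro ⟨u, v⟩
    simp only
    have hcls : ∀ u : Word r, IsConj (φ (FreeGroup.mk u))
        (φ (FreeGroup.mk (rep (e (ConjClasses.mk (φ (FreeGroup.mk u))))))) := by
      intro u
      rw [← ConjClasses.mk_eq_mk_iff_isConj, hrep, Equiv.symm_apply_apply]
    constructor
    · rintro ⟨⟨⟨i, j⟩, ⟨x, E⟩, ⟨y, F⟩⟩, hij, hE, hF⟩ hc
      apply hij
      have h3 := (hconj u (rep i)).2 ⟨x, E, hE⟩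
      have h4 := (hconj v (rep j)).2 ⟨y, F, hF⟩
      have h5 : ConjClasses.mk (φ (FreeGroup.mk (rep i))) =
          ConjClasses.mk (φ (FreeGroup.mk (rep j))) :=
        ConjClasses.mk_eq_mk_iff_isConj.2 (h3.symm.trans (hc.trans h4))
      rw [hrep, hrep] at h5
      exact e.symm.injective h5
    · intro hnc
      obtain ⟨x, E, hE⟩ := (hconj u _).1 (hcls u)
      obtain ⟨y, F, hF⟩ := (hconj v _).1 (hcls v)
      refine ⟨⟨⟨_, _⟩, ⟨x, E⟩, ⟨y, F⟩⟩, ?_, hE, hF⟩
      intro hij
      apply hnc
      rw [← ConjClasses.mk_eq_mk_iff_isConj]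
      exact e.injective hij

/-- Nontriviality in a simple group. -/
theorem ne_one_iff_simple {G : Type*} [Group G] [hs : IsSimpleGroup G]
    (φ : FreeGroup (Fin r) →* G) (hφ : Function.Surjective φ) {rel : ℕ → Word r}
    (hT : ∀ w, φ (FreeGroup.mk w) = 1 ↔ ∃ E, Triv rel w E) {x0 : Word r}
    (hx0 : φ (FreeGroup.mk x0) ≠ 1) (w : Word r) :
    φ (FreeGroup.mk w) ≠ 1 ↔
      ∃ (D : Der r) (E : Der r), Triv rel (winv x0 ++ dval (fun _ => w) D) E := by
  have key : ∀ D : Der r, (∃ E, Triv rel (winv x0 ++ dval (fun _ => w) D) E) ↔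
      φ (FreeGroup.mk (dval (fun _ => w) D)) = φ (FreeGroup.mk x0) := by
    intro D
    rw [← hT, ← FreeGroup.mul_mk, mk_winv, map_mul, map_inv, inv_mul_eq_one, eq_comm]
  simp only [key]
  constructor
  · intro hw
    have h1 : normalClosure ({φ (FreeGroup.mk w)} : Set G) = ⊤ := by
      rcases IsSimpleGroup.eq_bot_or_eq_top_of_normal (normalClosure ({φ (FreeGroup.mk w)} : Set G))
        inferInstance with h | h
      · exfalso
        apply hw
        have : φ (FreeGroup.mk w) ∈ normalClosure ({φ (FreeGroup.mk w)} : Set G) :=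
          subset_normalClosure rfl
        rw [h] at this
        exact mem_bot.1 this
      · exact h
    have h2 : φ (FreeGroup.mk x0) ∈ (normalClosure ({FreeGroup.mk w} : Set (FreeGroup (Fin r)))).map φ := by
      rw [map_normalClosure _ _ hφ, Set.image_singleton, h1]
      trivial
    obtain ⟨g, hg, hgx⟩ := h2
    have h3 : g ∈ normalClosure (Set.range fun _ : ℕ => (FreeGroup.mk w : FreeGroup (Fin r))) := by
      rwa [Set.range_const]
    obtain ⟨D, rfl⟩ := (mem_normalClosure_iff (fun _ => w) g).1 h3
    exact ⟨D, hgx⟩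
  · rintro ⟨D, hD⟩ hw
    apply hx0
    rw [← hD]
    have h3 : (FreeGroup.mk (dval (fun _ => w) D) : FreeGroup (Fin r)) ∈
        normalClosure (Set.range fun _ : ℕ => (FreeGroup.mk w : FreeGroup (Fin r))) :=
      (mem_normalClosure_iff (fun _ => w) _).2 ⟨D, rfl⟩
    have h4 : normalClosure (Set.range fun _ : ℕ => (FreeGroup.mk w : FreeGroup (Fin r))) ≤ φ.ker := by
      apply normalClosure_le_normal
      rintro _ ⟨n, rfl⟩
      exact hw
    exact h4 h3

theorem dvalc_primrec : Primrec₂ (fun (w : Word r) (D : Der r) => dval (fun _ => w) D) := by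
  refine Primrec.list_flatMap Primrec.snd ?_
  have d : Primrec (fun p : (Word r × Der r) × (List (Fin r × Bool) × (ℕ × Bool)) => p.2) :=
    Primrec.snd
  have hw : Primrec (fun p : (Word r × Der r) × (List (Fin r × Bool) × (ℕ × Bool)) => p.1.1) :=
    Primrec.fst.comp Primrec.fst
  have h1 := Primrec.fst.comp d
  have h3 := Primrec.snd.comp (Primrec.snd.comp d)
  exact Primrec.list_append.comp h1 (Primrec.list_append.comp
    (Primrec.cond h3 hw (winv_primrec.comp hw)) (winv_primrec.comp h1))

/-- The `n`-th power of a word. -/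
def wpow (w : Word r) (n : ℕ) : Word r := (List.range n).flatMap (fun _ => w)

theorem wpow_primrec (w : Word r) : Primrec (wpow w) :=
  Primrec.list_flatMap Primrec.list_range (Primrec.const w).to₂

theorem mk_wpow (w : Word r) (n : ℕ) :
    (FreeGroup.mk (wpow w n) : FreeGroup (Fin r)) = (FreeGroup.mk w) ^ n := by
  induction n with
  | zero => simp [wpow, FreeGroup.one_eq_mk]
  | succ n ih =>
    have : wpow w (n + 1) = wpow w n ++ w := by
      simp [wpow, List.range_succ]
    rw [this, ← FreeGroup.mul_mk, ih, pow_succ]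

/-- Groups of type (3) have solvable word problem. -/
theorem wp_of_properCyclic {G : Type*} [Group G] [hG : Group.IsFinitelyPresented G]
    [hi : Infinite G] (h3 : ProperCyclic G) : SolvableWP G := by
  classical
  intro r φ hφ
  have hfg : Group.FG G := Group.fg_of_surjective hφ
  have hc : center G ≠ ⊤ := h3.not_comm
  have hcyc : IsCyclic (center G) := h3.2 _ hc
  obtain ⟨z, hz⟩ := ((center G).isCyclic_iff_exists_zpowers_eq_top).1 hcyc
  have hs : IsSimpleGroup (G ⧸ center G) := h3.simple_quotient hc
  have hcfg : Group.FG (center G) := by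
    rw [Group.fg_iff_subgroup_fg]
    exact ⟨{z}, by rw [Finset.coe_singleton, ← zpowers_eq_closure, hz]⟩
  have hfpq : Group.IsFinitelyPresented (G ⧸ center G) :=
    Group.IsFinitelyPresented.quotient _ (.of_FG _)
  obtain ⟨rel, hrel, hT⟩ := fp_rel φ hφ
  let π : FreeGroup (Fin r) →* G ⧸ center G := (QuotientGroup.mk' (center G)).comp φ
  have hπ : Function.Surjective π := (QuotientGroup.mk'_surjective _).comp hφ
  obtain ⟨relS, hrelS, hTS⟩ := fp_rel π hπ
  obtain ⟨s0, hs0⟩ := exists_ne (1 : G ⧸ center G)
  obtain ⟨y0, hy0⟩ := hπ s0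
  have hx0 : π (FreeGroup.mk y0.toWord) ≠ 1 := by
    rw [FreeGroup.mk_toWord, hy0]; exact hs0
  set x0 : Word r := y0.toWord with hx0d
  obtain ⟨zf, hzf⟩ := hφ z
  let zw : Word r := zf.toWord
  have hzw : φ (FreeGroup.mk zw) = z := by rw [FreeGroup.mk_toWord]; exact hzf
  have hπ1 : ∀ w : Word r, π (FreeGroup.mk w) = 1 ↔ φ (FreeGroup.mk w) ∈ center G := by
    intro w
    exact QuotientGroup.eq_one_iff _
  rw [ComputablePred.computable_iff_re_compl_re']
  refine ⟨?_, ?_⟩
  · have h1 : PrimrecPred (fun q : Word r × Der r => Triv rel q.1 q.2) :=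
      triv_primrec hrel Primrec.fst Primrec.snd
    exact (re_of_prim h1).of_eq fun w => (hT w).symm
  · let N := orderOf z
    have h1 : PrimrecPred (fun q : Word r × ((Der r × Der r) × ((ℕ × Bool) × Der r)) =>
        Triv relS (winv x0 ++ dval (fun _ => q.1) q.2.1.1) q.2.1.2 ∨
        ((¬ (q.2.2.1.1 + 1) % N = 0) ∧
          Triv rel (q.1 ++ (bif q.2.2.1.2 then wpow zw (q.2.2.1.1 + 1)
            else wpow (winv zw) (q.2.2.1.1 + 1))) q.2.2.2)) := by
      have pA := Primrec.fst (α := Word r) (β := (Der r × Der r) × ((ℕ × Bool) × Der r))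
      have pB := Primrec.snd (α := Word r) (β := (Der r × Der r) × ((ℕ × Bool) × Der r))
      have dD := Primrec.fst.comp (Primrec.fst.comp pB)
      have dE := Primrec.snd.comp (Primrec.fst.comp pB)
      have dn := Primrec.fst.comp (Primrec.fst.comp (Primrec.snd.comp pB))
      have db := Primrec.snd.comp (Primrec.fst.comp (Primrec.snd.comp pB))
      have dF := Primrec.snd.comp (Primrec.snd.comp pB)
      have dn1 := Primrec.succ.comp dn
      refine PrimrecPred.or ?_ (PrimrecPred.and ?_ ?_)
      · apply triv_primrec hrelS _ dE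
        exact Primrec.list_append.comp (Primrec.const _) (dvalc_primrec.comp pA dD)
      · exact PrimrecPred.not (Primrec.eq.comp (Primrec.nat_mod.comp dn1 (Primrec.const N))
          (Primrec.const 0))
      · apply triv_primrec hrel _ dF
        exact Primrec.list_append.comp pA (Primrec.cond db ((wpow_primrec zw).comp dn1)
          ((wpow_primrec (winv zw)).comp dn1))
    refine (re_of_prim h1).of_eq ?_
    intro w
    have hzk : ∀ k : ℕ, z ^ k = 1 ↔ k % N = 0 := by
      intro k
      rw [← orderOf_dvd_iff_pow_eq_one]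
      exact Nat.dvd_iff_mod_eq_zero ..
    constructor
    · rintro ⟨⟨⟨D, E⟩, ⟨n, b⟩, F⟩, h | ⟨hn, hF⟩⟩ hw
      · have h2 := (ne_one_iff_simple π hπ hTS hx0 w).2 ⟨D, E, h⟩
        apply h2
        rw [hπ1, hw]
        exact one_mem _
      · apply hn
        rw [← hzk]
        have h2 := (hT _).2 ⟨F, hF⟩
        rw [← FreeGroup.mul_mk, map_mul, hw, one_mul] at h2
        cases b
        · simp only [cond_false] at h2
          rw [mk_wpow, mk_winv, map_pow, map_inv, hzw, inv_pow, inv_eq_one] at h2
          exact h2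
        · simp only [cond_true] at h2
          rw [mk_wpow, map_pow, hzw] at h2
          exact h2
    · intro hw
      by_cases hwc : φ (FreeGroup.mk w) ∈ center G
      · rw [← hz] at hwc
        obtain ⟨a, ha⟩ := mem_zpowers_iff.1 hwc
        have ha0 : a ≠ 0 := by
          rintro rfl
          rw [zpow_zero] at ha
          exact hw ha.symm
        rcases lt_or_gt_of_ne ha0 with hneg | hpos
        · obtain ⟨n, hn⟩ : ∃ n : ℕ, a = -((n + 1 : ℕ) : ℤ) := ⟨(-a - 1).toNat, by omega⟩
          have h2 : φ (FreeGroup.mk (w ++ (bif true then wpow zw (n + 1)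
            else wpow (winv zw) (n + 1)))) = 1 := by
            simp only [cond_true]
            rw [← FreeGroup.mul_mk, map_mul, mk_wpow, map_pow, hzw, ← ha, hn, zpow_neg,
              zpow_natCast, inv_mul_cancel]
          obtain ⟨F, hF⟩ := (hT _).1 h2
          refine ⟨⟨⟨[], []⟩, ⟨n, true⟩, F⟩, Or.inr ⟨?_, hF⟩⟩
          intro h0
          apply hw
          rw [← ha, hn, zpow_neg, zpow_natCast, (hzk _).2 h0, inv_one]
        · obtain ⟨n, hn⟩ : ∃ n : ℕ, a = ((n + 1 : ℕ) : ℤ) := ⟨(a - 1).toNat, by omega⟩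
          have h2 : φ (FreeGroup.mk (w ++ (bif false then wpow zw (n + 1)
            else wpow (winv zw) (n + 1)))) = 1 := by
            simp only [cond_false]
            rw [← FreeGroup.mul_mk, map_mul, mk_wpow, mk_winv, map_pow, map_inv, hzw, ← ha, hn,
              zpow_natCast, inv_pow, mul_inv_cancel]
          obtain ⟨F, hF⟩ := (hT _).1 h2
          refine ⟨⟨⟨[], []⟩, ⟨n, false⟩, F⟩, Or.inr ⟨?_, hF⟩⟩
          intro h0
          apply hw
          rw [← ha, hn, zpow_natCast, (hzk _).2 h0]
      · have h2 : π (FreeGroup.mk w) ≠ 1 := fun h => hwc ((hπ1 w).1 h)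
        obtain ⟨D, E, h⟩ := (ne_one_iff_simple π hπ hTS hx0 w).1 h2
        exact ⟨⟨⟨D, E⟩, ⟨0, true⟩, []⟩, Or.inl h⟩

end Pool.Agent.X277.Mon
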